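import Mathlib

/-!
# Cuts and derivations: definitions

Project MelE: a finitely generated locally indicable group `A` with a derivation `d : A → K[A]^k`,
`∑ d g m * (u m - 1) = g - 1` (that is: with a projective augmentation ideal), is free (Stallings, Swan).

* `bd S B`: the edges of the Cayley graph (right multiplication by elements of `S`) which leave `B`.
* `Nest B C`: nested.
* `Der K A`: the derivation.
-/

open Pointwise

namespace Pool.Agent.MelE

/-- The edges which leave `B`. -/
def bd {A : Type} [Group A] (S : Finset A) (B : Set A) : Set (A × A) :=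
  {e | e.2 ∈ S ∧ e.1 ∈ B ∧ e.1 * e.2 ∉ B}

/-- Nested sets. -/
def Nest {A : Type} (B C : Set A) : Prop := B ⊆ C ∨ C ⊆ B ∨ Disjoint B C ∨ B ∪ C = Set.univ

/-- The derivation form of: the augmentation ideal of `K[A]` is projective. -/
def Der (K A : Type) [Field K] [Group A] : Prop :=
  ∃ (k : ℕ) (u : Fin k → A) (d : A → Fin k → MonoidAlgebra K A),
    (∀ g h, d (g * h) = d g + MonoidAlgebra.single g (1 : K) • d h) ∧
    ∀ g, ∑ m, d g m * (MonoidAlgebra.single (u m) (1 : K) - 1) = MonoidAlgebra.single g (1 : K) - 1

end Pool.Agent.MelE
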