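import Pool.Agent.MelL.UP
import Pool.Agent.MelE.Def

/-!
# The first Betti number (module E5a)

`b1 A = finrank ℚ (Additive A →+ ℚ)`.  `A` finitely generated: finite dimensional (restriction to the generators is
injective into `ι → ℚ`).  `H : Bool → Subgroup A` with bijective `CoprodI.lift`: `H b` is a retract of `A` (`retr`), so
finitely generated.  The linear map `(H b → ℚ) → (A → ℚ)`, `f ↦ f ∘ ρ b`, is injective, and not surjective: for
`c ≠ b` there is `f : H c → ℚ` not zero (`LocInd`: `H c` finitely generated, not `⊥`), and `f ∘ ρ c` vanishes on `H b`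
but not on `H c` (`retr2`), while `f' ∘ ρ b` vanishing on `H b` is zero.  So `b1 (H b) < b1 A`
(`LinearMap.finrank_le_finrank_of_injective` and, for the strict inequality, `Submodule.finrank_lt` for the range).
-/

open Pointwise Monoid

namespace Pool.Agent.MelE

open Pool.Agent.MelL (LocInd locInd_subgroup)

/-- The first Betti number. -/
noncomputable def b1 (A : Type) [Group A] : ℕ := Module.finrank ℚ (Additive A →+ ℚ)

/-- The retractions to the factors; they kill the other factor. -/
theorem retr {A : Type} [Group A] (H : Bool → Subgroup A)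
    (hH : Function.Bijective (CoprodI.lift fun b => (H b).subtype)) (b : Bool) :
    ∃ ρ : A →* H b, (∀ x : H b, ρ x = x) ∧ ∀ c, c ≠ b → ∀ x : H c, ρ x = 1 := by
  classical
  obtain ⟨e, he⟩ : ∃ e : CoprodI (fun b => ↥(H b)) ≃* A,
      ∀ x, e x = (CoprodI.lift fun b => (H b).subtype : CoprodI (fun b => ↥(H b)) →* A) x :=
    ⟨MulEquiv.ofBijective _ hH, fun x => rfl⟩
  have hof : ∀ (c : Bool) (x : H c), e.symm (x : A) = CoprodI.of (M := fun b => ↥(H b)) (i := c) x := by
    intro c x
    rw [MulEquiv.symm_apply_eq, he, CoprodI.lift_of]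
    rfl
  obtain ⟨φ, hφ1, hφ2⟩ : ∃ φ : CoprodI (fun b => ↥(H b)) →* H b, (∀ x : H b, φ (CoprodI.of (M := fun b => ↥(H b)) (i := b) x) = x) ∧
      ∀ c, c ≠ b → ∀ x : H c, φ (CoprodI.of (M := fun b => ↥(H b)) (i := c) x) = 1 := by
    refine ⟨CoprodI.lift fun c => if h : c = b then
      (MulEquiv.subgroupCongr (congrArg H h)).toMonoidHom else 1, fun x => ?_, fun c hc x => ?_⟩
    · rw [CoprodI.lift_of, dif_pos rfl]
      rfl
    · rw [CoprodI.lift_of, dif_neg hc]
      rfl
  refine ⟨φ.comp e.symm.toMonoidHom, fun x => ?_, fun c hc x => ?_⟩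
  · have h1 : (φ.comp e.symm.toMonoidHom) (x : A) = φ (e.symm (x : A)) := rfl
    rw [h1, hof, hφ1]
  · have h1 : (φ.comp e.symm.toMonoidHom) (x : A) = φ (e.symm (x : A)) := rfl
    rw [h1, hof, hφ2 c hc]

/-- Homomorphisms of a finitely generated group to the rational numbers form a finite dimensional space. -/
private theorem fin_hom {A : Type} [Group A] (hfg : Group.FG A) : Module.Finite ℚ (Additive A →+ ℚ) := by
  obtain ⟨n, S, -, hS⟩ := Group.fg_iff'.1 hfg
  obtain ⟨L, hL⟩ : ∃ L : (Additive A →+ ℚ) →ₗ[ℚ] (S → ℚ), ∀ f s, L f s = f (Additive.ofMul s.1) :=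
    ⟨{ toFun := fun f s => f (Additive.ofMul s.1)
       map_add' := fun _ _ => rfl
       map_smul' := fun _ _ => rfl }, fun _ _ => rfl⟩
  refine Module.Finite.of_injective L ?_
  intro f g hfg'
  have h1 : ∀ x ∈ Subgroup.closure (S : Set A), f (Additive.ofMul x) = g (Additive.ofMul x) := by
    intro x hx
    induction hx using Subgroup.closure_induction with
    | mem s hs =>
      have h2 := congrFun hfg' ⟨s, hs⟩
      rw [hL, hL] at h2
      exact h2
    | one => rw [ofMul_one, map_zero, map_zero]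
    | mul x y _ _ h3 h4 => rw [ofMul_mul, map_add, map_add, h3, h4]
    | inv x _ h3 => rw [ofMul_inv, map_neg, map_neg, h3]
  refine AddMonoidHom.ext fun x => ?_
  exact h1 (Additive.toMul x) (by rw [hS]; exact Subgroup.mem_top _)

theorem b1_lt {A : Type} [Group A] (hfg : Group.FG A) (hl : LocInd A) (H : Bool → Subgroup A) (hne : ∀ b, H b ≠ ⊥)
    (hH : Function.Bijective (CoprodI.lift fun b => (H b).subtype)) (b : Bool) : Group.FG (H b) ∧ b1 (H b) < b1 A := by
  have hfgH : ∀ b, Group.FG (H b) := by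
    intro b
    obtain ⟨ρ, h1, -⟩ := retr H hH b
    exact Group.fg_of_surjective (f := ρ) fun x => ⟨x, h1 x⟩
  refine ⟨hfgH b, ?_⟩
  obtain ⟨ρ, h1, h2⟩ := retr H hH b
  have hfin := fin_hom hfg
  obtain ⟨L, hL⟩ : ∃ L : (Additive (H b) →+ ℚ) →ₗ[ℚ] (Additive A →+ ℚ), ∀ f x,
      L f x = f (Additive.ofMul (ρ (Additive.toMul x))) :=
    ⟨{ toFun := fun f => f.comp (MonoidHom.toAdditive ρ)
       map_add' := fun _ _ => rfl
       map_smul' := fun _ _ => rfl }, fun _ _ => rfl⟩
  have hinj : Function.Injective L := by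
    intro f g hfg
    refine AddMonoidHom.ext fun x => ?_
    have h3 := DFunLike.congr_fun hfg (Additive.ofMul ((Additive.toMul x : H b) : A))
    rw [hL, hL, toMul_ofMul, h1, ofMul_toMul] at h3
    exact h3
  obtain ⟨c, hc⟩ : ∃ c : Bool, c ≠ b := ⟨!b, by simp⟩
  obtain ⟨χ, hχ⟩ := hl (H c) ((Group.fg_iff_subgroup_fg _).1 (hfgH c)) (hne c)
  obtain ⟨x, hx⟩ : ∃ x, χ x ≠ 1 := by
    by_contra hcon
    push Not at hcon
    exact hχ (MonoidHom.ext hcon)
  obtain ⟨ρ', h1', -⟩ := retr H hH c
  have hne' : LinearMap.range L ≠ ⊤ := by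
    intro htop
    obtain ⟨f, hf⟩ := LinearMap.range_eq_top.1 htop
      (AddMonoidHom.mk' (fun y : Additive A => Multiplicative.toAdd (χ (ρ' (Additive.toMul y)))) (by
        intro y z
        rw [toMul_add, map_mul, map_mul, toAdd_mul]))
    have h4 := DFunLike.congr_fun hf (Additive.ofMul (x : A))
    rw [hL, toMul_ofMul, h2 c hc, ofMul_one, map_zero] at h4
    have h5 : (0 : ℚ) = Multiplicative.toAdd (χ (ρ' (x : A))) := h4
    rw [h1'] at h5
    exact hx (by rw [← ofAdd_toAdd (χ x), ← h5, ofAdd_zero])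
  have h5 := Submodule.finrank_lt hne'
  rw [LinearMap.finrank_range_of_inj hinj] at h5
  exact h5

end Pool.Agent.MelE
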