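import Pool.Agent.MelL.UP

/-!
# Homomorphisms of locally indicable groups to the integers
-/

namespace Pool.Agent.MelE

open Pool.Agent.MelL (LocInd)

/-- A finitely generated locally indicable group maps onto the integers. -/
theorem exists_chi {B : Type} [Group B] (hfg : Group.FG B) (hl : LocInd B) (hne : Nontrivial B) :
    ∃ (χ : B →* Multiplicative ℤ) (b : B), χ b = Multiplicative.ofAdd 1 := by
  obtain ⟨S, hS⟩ := Group.fg_def.mp hfg
  obtain ⟨χ0, hχ0⟩ := hl ⊤ (Group.fg_def.mp hfg) (by
    intro h
    obtain ⟨x, hx⟩ := exists_ne (1 : B)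
    have h1 : x ∈ (⊤ : Subgroup B) := trivial
    rw [h] at h1
    exact hx (Subgroup.mem_bot.mp h1))
  let f : B →* Multiplicative ℚ := χ0.comp (Subgroup.topEquiv (G := B)).symm.toMonoidHom
  have hf : ∃ x, f x ≠ 1 := by
    by_contra h
    push Not at h
    apply hχ0
    ext x
    exact congrArg Multiplicative.toAdd (h x.1)
  -- the span of the values at the generators
  let M : Submodule ℤ ℚ := Submodule.span ℤ ((fun x : B => (f x).toAdd) '' (S : Set B))
  have hM : ∀ x, (f x).toAdd ∈ M := by
    intro x
    have hx : x ∈ Subgroup.closure (S : Set B) := by rw [hS]; trivial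
    induction hx using Subgroup.closure_induction with
    | mem y hy => exact Submodule.subset_span ⟨y, hy, rfl⟩
    | one => rw [map_one]; exact M.zero_mem
    | mul a b _ _ ha hb => rw [map_mul, toAdd_mul]; exact M.add_mem ha hb
    | inv a _ ha => rw [map_inv, toAdd_inv]; exact M.neg_mem ha
  have hMf : Module.Finite ℤ M := Module.Finite.iff_fg.mpr (Submodule.fg_span (S.finite_toSet.image _))
  have hfree : Module.Free ℤ M := inferInstance
  let g : B →* Multiplicative M :=
    { toFun := fun x => Multiplicative.ofAdd ⟨(f x).toAdd, hM x⟩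
      map_one' := by
        apply Multiplicative.toAdd.injective
        apply Subtype.ext
        show (f 1).toAdd = 0
        rw [map_one]
        rfl
      map_mul' := fun x y => by
        apply Multiplicative.toAdd.injective
        apply Subtype.ext
        show (f (x * y)).toAdd = (f x).toAdd + (f y).toAdd
        rw [map_mul]
        rfl }
  let b := Module.Free.chooseBasis ℤ M
  -- a coordinate which does not vanish
  obtain ⟨x, hx⟩ := hf
  have hx' : (⟨(f x).toAdd, hM x⟩ : M) ≠ 0 := by
    intro h
    apply hx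
    apply Multiplicative.toAdd.injective
    exact congrArg Subtype.val h
  obtain ⟨i, hi⟩ : ∃ i, b.repr ⟨(f x).toAdd, hM x⟩ i ≠ 0 := by
    by_contra h
    push Not at h
    apply hx'
    apply b.repr.injective
    ext i
    rw [map_zero]
    exact h i
  have hsur : ∀ m ∈ M, ∃ y, (f y).toAdd = m := by
    intro m hm
    induction hm using Submodule.span_induction with
    | mem q hq =>
      obtain ⟨y, _, rfl⟩ := hq
      exact ⟨y, rfl⟩
    | zero => exact ⟨1, by rw [map_one]; rfl⟩
    | add a b _ _ ha hb =>
      obtain ⟨y, hy⟩ := ha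
      obtain ⟨z, hz⟩ := hb
      exact ⟨y * z, by rw [map_mul, toAdd_mul, hy, hz]⟩
    | smul n a _ ha =>
      obtain ⟨y, hy⟩ := ha
      exact ⟨y ^ n, by rw [map_zpow, toAdd_zpow, hy]⟩
  let c : B →* Multiplicative ℤ := (AddMonoidHom.toMultiplicative (b.coord i).toAddMonoidHom).comp g
  have hc : ∀ y, (c y).toAdd = b.repr ⟨(f y).toAdd, hM y⟩ i := fun y => rfl
  obtain ⟨y, hy⟩ := hsur (b i).1 (b i).2
  refine ⟨c, y, ?_⟩
  apply Multiplicative.toAdd.injective
  rw [hc]
  have h1 : (⟨(f y).toAdd, hM y⟩ : M) = b i := Subtype.ext hy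
  rw [h1, b.repr_self, Finsupp.single_eq_same]
  rfl

end Pool.Agent.MelE
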