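import Pool.Agent.MelE.Def

/-!
# Cuts of a Cayley graph: nested minimal cuts (modules E1, E2)

`S` a finite symmetric generating set of `A`; the edges of the Cayley graph are the pairs `(g, s)`, from `g` to `g * s`.
`bd S B`: the edges leaving `B`.  A cut is a set `B` with `B`, `Bᶜ` infinite and `bd S B` finite; minimal cuts have the
smallest number of edges.  (Kroen's proof of Dunwoody's theorem.)

* `bd_compl`: `Bᶜ` has as many edges as `B`.
* `bd_submod`: `|bd (B ∩ C)| + |bd (B ∪ C)| ≤ |bd B| + |bd C|`.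
* `Mn.conn`: minimal cuts are connected.
* `Mn.fin`: finitely many minimal cuts contain `x` and not `y` (limit of an ultrafilter).
* `Mn.crossing`: finitely many minimal cuts are not nested with a given one.
* `exists_nested`: a minimal cut with the smallest number of crossings is nested with its translates.
-/

set_option linter.unusedSectionVars false

open Set

namespace Pool.Agent.MelE

variable {A : Type} [Group A]

/-- The translate `g * B`. -/
def tr (g : A) (B : Set A) : Set A := {x | g⁻¹ * x ∈ B}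

/-- Nested sets. -/
def Nst (B C : Set A) : Prop := B ⊆ C ∨ B ⊆ Cᶜ ∨ Bᶜ ⊆ C ∨ Bᶜ ⊆ Cᶜ

/-- Cuts. -/
def IsCut (S : Finset A) (B : Set A) : Prop := B.Infinite ∧ Bᶜ.Infinite ∧ (bd S B).Finite

/-- Minimal cuts. -/
def Mn (S : Finset A) (B : Set A) : Prop := IsCut S B ∧ ∀ C, IsCut S C → (bd S B).ncard ≤ (bd S C).ncard

theorem mem_tr {g x : A} {B : Set A} : x ∈ tr g B ↔ g⁻¹ * x ∈ B := Iff.rfl

theorem tr_compl (g : A) (B : Set A) : tr g Bᶜ = (tr g B)ᶜ := rfl

theorem tr_tr (g h : A) (B : Set A) : tr g (tr h B) = tr (g * h) B := by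
  ext x
  simp only [mem_tr, mul_inv_rev, mul_assoc]

theorem tr_one (B : Set A) : tr 1 B = B := by
  ext x
  simp only [mem_tr, inv_one, one_mul]

theorem tr_mono {g : A} {B C : Set A} (h : B ⊆ C) : tr g B ⊆ tr g C := fun _ hx => h hx

theorem tr_image (g : A) (B : Set A) : tr g B = (fun x => g * x) '' B := by
  ext x
  rw [mem_tr, mem_image]
  constructor
  · intro h
    exact ⟨g⁻¹ * x, h, by group⟩
  · rintro ⟨y, hy, rfl⟩
    rwa [inv_mul_cancel_left]

theorem tr_infinite {g : A} {B : Set A} (h : B.Infinite) : (tr g B).Infinite := by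
  rw [tr_image]
  exact h.image (mul_right_injective g).injOn

theorem bd_tr (S : Finset A) (g : A) (B : Set A) : bd S (tr g B) = (fun e : A × A => (g * e.1, e.2)) '' bd S B := by
  ext ⟨x, s⟩
  simp only [bd, mem_ofPred_eq, mem_tr, mem_image, Prod.mk.injEq, Prod.exists]
  constructor
  · rintro ⟨h1, h2, h3⟩
    exact ⟨g⁻¹ * x, s, ⟨h1, h2, by rwa [mul_assoc]⟩, by group, rfl⟩
  · rintro ⟨y, t, ⟨h1, h2, h3⟩, rfl, rfl⟩
    refine ⟨h1, by rwa [inv_mul_cancel_left], ?_⟩
    rwa [mul_assoc, inv_mul_cancel_left]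

theorem trE_inj (g : A) : Function.Injective fun e : A × A => (g * e.1, e.2) := by
  rintro ⟨x, s⟩ ⟨y, t⟩ h
  simp only [Prod.mk.injEq, mul_right_inj] at h
  rw [h.1, h.2]

theorem Nst.symm {B C : Set A} (h : Nst B C) : Nst C B := by
  rcases h with h | h | h | h
  · right; right; right
    exact compl_subset_compl.mpr h
  · right; left
    exact subset_compl_comm.mp h
  · right; right; left
    exact compl_subset_comm.mp h
  · left
    exact compl_subset_compl.mp h

theorem Nst.compl_right {B C : Set A} (h : Nst B C) : Nst B Cᶜ := by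
  unfold Nst
  rw [compl_compl]
  rcases h with h | h | h | h
  · exact Or.inr (Or.inl h)
  · exact Or.inl h
  · exact Or.inr (Or.inr (Or.inr h))
  · exact Or.inr (Or.inr (Or.inl h))

theorem nst_compl_right {B C : Set A} : Nst B Cᶜ ↔ Nst B C :=
  ⟨fun h => by simpa only [compl_compl] using h.compl_right, fun h => h.compl_right⟩

theorem nst_compl_left {B C : Set A} : Nst Bᶜ C ↔ Nst B C :=
  ⟨fun h => (nst_compl_right.mp h.symm).symm, fun h => (nst_compl_right.mpr h.symm).symm⟩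

theorem Nst.tr {B C : Set A} (h : Nst B C) (g : A) : Nst (tr g B) (tr g C) := by
  unfold Nst
  rw [← tr_compl, ← tr_compl]
  rcases h with h | h | h | h
  · exact Or.inl (tr_mono h)
  · exact Or.inr (Or.inl (tr_mono h))
  · exact Or.inr (Or.inr (Or.inl (tr_mono h)))
  · exact Or.inr (Or.inr (Or.inr (tr_mono h)))

theorem nst_tr {B C : Set A} {g : A} : Nst (MelE.tr g B) (MelE.tr g C) ↔ Nst B C :=
  ⟨fun h => by simpa only [tr_tr, inv_mul_cancel, tr_one] using h.tr g⁻¹, fun h => h.tr g⟩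

section

variable {S : Finset A} (hS : ∀ s ∈ S, s⁻¹ ∈ S) (hgen : Subgroup.closure (S : Set A) = ⊤)

include hS in
theorem bd_compl_image (B : Set A) : bd S Bᶜ = (fun e : A × A => (e.1 * e.2, e.2⁻¹)) '' bd S B := by
  ext ⟨x, s⟩
  simp only [bd, mem_ofPred_eq, mem_compl_iff, not_not, mem_image, Prod.mk.injEq, Prod.exists]
  constructor
  · rintro ⟨h1, h2, h3⟩
    exact ⟨x * s, s⁻¹, ⟨hS s h1, h3, by rwa [mul_inv_cancel_right]⟩, by group, inv_inv s⟩
  · rintro ⟨y, t, ⟨h1, h2, h3⟩, rfl, rfl⟩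
    exact ⟨hS t h1, h3, by rwa [mul_inv_cancel_right]⟩

theorem flip_inj : Function.Injective fun e : A × A => (e.1 * e.2, e.2⁻¹) := by
  rintro ⟨x, s⟩ ⟨y, t⟩ h
  simp only [Prod.mk.injEq, inv_inj] at h
  obtain ⟨h1, rfl⟩ := h
  rw [mul_left_inj] at h1
  rw [h1]

include hS in
theorem bd_compl (B : Set A) : (bd S Bᶜ).ncard = (bd S B).ncard := by
  rw [bd_compl_image hS]
  exact ncard_image_of_injective _ flip_inj

include hS in
theorem bd_compl_fin {B : Set A} (h : (bd S B).Finite) : (bd S Bᶜ).Finite := by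
  rw [bd_compl_image hS]
  exact h.image _

theorem bd_inter_union (B C : Set A) : bd S (B ∩ C) ∪ bd S (B ∪ C) ⊆ bd S B ∪ bd S C := by
  rintro ⟨x, s⟩ h
  simp only [bd, mem_union, mem_inter_iff, mem_ofPred_eq] at h ⊢
  tauto

theorem bd_inter_inter (B C : Set A) : bd S (B ∩ C) ∩ bd S (B ∪ C) ⊆ bd S B ∩ bd S C := by
  rintro ⟨x, s⟩ h
  simp only [bd, mem_union, mem_inter_iff, mem_ofPred_eq] at h ⊢
  tauto

theorem bd_inter_fin {B C : Set A} (hB : (bd S B).Finite) (hC : (bd S C).Finite) : (bd S (B ∩ C)).Finite :=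
  (hB.union hC).subset (subset_union_left.trans (bd_inter_union B C))

theorem bd_union_fin {B C : Set A} (hB : (bd S B).Finite) (hC : (bd S C).Finite) : (bd S (B ∪ C)).Finite :=
  (hB.union hC).subset (subset_union_right.trans (bd_inter_union B C))

theorem bd_submod {B C : Set A} (hB : (bd S B).Finite) (hC : (bd S C).Finite) :
    (bd S (B ∩ C)).ncard + (bd S (B ∪ C)).ncard ≤ (bd S B).ncard + (bd S C).ncard := by
  rw [← ncard_union_add_ncard_inter _ _ (bd_inter_fin hB hC) (bd_union_fin hB hC),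
    ← ncard_union_add_ncard_inter _ _ hB hC]
  exact add_le_add (ncard_le_ncard (bd_inter_union B C) (hB.union hC))
    (ncard_le_ncard (bd_inter_inter B C) (hB.inter_of_left _))

include hS hgen in
/-- Induction in the Cayley graph. -/
theorem cay_ind {D : Set A} {x : A} (hx : x ∈ D) (h : ∀ g ∈ D, ∀ s ∈ S, g * s ∈ D) (y : A) : y ∈ D := by
  have h1 : ∀ w : A, w ∈ Subgroup.closure (S : Set A) → ∀ g ∈ D, g * w ∈ D ∧ g * w⁻¹ ∈ D := by
    intro w hw
    induction hw using Subgroup.closure_induction with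
    | mem s hs => exact fun g hg => ⟨h g hg s hs, h g hg s⁻¹ (hS s hs)⟩
    | one => exact fun g hg => ⟨by rwa [mul_one], by rwa [inv_one, mul_one]⟩
    | mul a b _ _ ha hb =>
      intro g hg
      rw [← mul_assoc, mul_inv_rev, ← mul_assoc]
      exact ⟨(hb _ (ha g hg).1).1, (ha _ (hb g hg).2).2⟩
    | inv a _ ha =>
      intro g hg
      rw [inv_inv]
      exact (ha g hg).symm
  have h2 := (h1 (x⁻¹ * y) (by rw [hgen]; trivial) x hx).1
  rwa [mul_inv_cancel_left] at h2

include hS hgen in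
theorem bd_nonempty {B : Set A} (h1 : B.Nonempty) (h2 : Bᶜ.Nonempty) : (bd S B).Nonempty := by
  by_contra h
  rw [not_nonempty_iff_eq_empty] at h
  obtain ⟨x, hx⟩ := h1
  obtain ⟨y, hy⟩ := h2
  apply hy
  refine cay_ind hS hgen hx (fun g hg s hs => ?_) y
  by_contra hc
  have h3 : (g, s) ∈ bd S B := ⟨hs, hg, hc⟩
  rw [h] at h3
  exact h3

theorem Mn.compl (hS : ∀ s ∈ S, s⁻¹ ∈ S) {B : Set A} (h : Mn S B) : Mn S Bᶜ := by
  refine ⟨⟨h.1.2.1, by rw [compl_compl]; exact h.1.1, bd_compl_fin hS h.1.2.2⟩, fun C hC => ?_⟩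
  rw [bd_compl hS]
  exact h.2 C hC

theorem IsCut.tr {B : Set A} (h : IsCut S B) (g : A) : IsCut S (tr g B) := by
  refine ⟨tr_infinite h.1, ?_, ?_⟩
  · rw [← tr_compl]
    exact tr_infinite h.2.1
  · rw [bd_tr]
    exact h.2.2.image _

theorem ncard_bd_tr (g : A) (B : Set A) : (bd S (tr g B)).ncard = (bd S B).ncard := by
  rw [bd_tr]
  exact ncard_image_of_injective _ (trE_inj g)

theorem Mn.tr {B : Set A} (h : Mn S B) (g : A) : Mn S (MelE.tr g B) := by
  refine ⟨h.1.tr g, fun C hC => ?_⟩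
  rw [ncard_bd_tr]
  exact h.2 C hC

include hS hgen in
/-- Minimal cuts are connected. -/
theorem Mn.conn {B : Set A} (h : Mn S B) {D : Set A} (hD : D ⊆ B) (h1 : D.Nonempty) (h2 : (B \ D).Nonempty) :
    ∃ g s, s ∈ S ∧ g ∈ D ∧ g * s ∈ B \ D := by
  by_contra hc
  push Not at hc
  have hsub : ∀ g s, s ∈ S → g ∈ B \ D → g * s ∉ D := by
    intro g s hs hg hgs
    have := hc (g * s) s⁻¹ (hS s hs) hgs
    rw [mul_inv_cancel_right] at this
    exact this hg
  have e1 : bd S D ⊆ bd S B := by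
    rintro ⟨g, s⟩ ⟨hs, hg, hgs⟩
    exact ⟨hs, hD hg, fun h3 => hc g s hs hg ⟨h3, hgs⟩⟩
  have e2 : bd S (B \ D) ⊆ bd S B := by
    rintro ⟨g, s⟩ ⟨hs, hg, hgs⟩
    exact ⟨hs, hg.1, fun h3 => hgs ⟨h3, hsub g s hs hg⟩⟩
  have e3 : Disjoint (bd S D) (bd S (B \ D)) := by
    rw [Set.disjoint_left]
    rintro ⟨g, s⟩ ⟨_, hg, _⟩ ⟨_, hg', _⟩
    exact hg'.2 hg
  have f1 := h.1.2.2.subset e1
  have f2 := h.1.2.2.subset e2
  have e4 : (bd S D).ncard + (bd S (B \ D)).ncard ≤ (bd S B).ncard := by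
    rw [← ncard_union_eq e3 f1 f2]
    exact ncard_le_ncard (union_subset e1 e2) h.1.2.2
  have hBc : Bᶜ.Nonempty := h.1.2.1.nonempty
  have n1 : 0 < (bd S D).ncard := by
    rw [ncard_pos f1]
    exact bd_nonempty hS hgen h1 (hBc.mono (compl_subset_compl.mpr hD))
  have n2 : 0 < (bd S (B \ D)).ncard := by
    rw [ncard_pos f2]
    exact bd_nonempty hS hgen h2 (hBc.mono (compl_subset_compl.mpr sdiff_subset))
  have hu : D ∪ (B \ D) = B := union_sdiff_cancel hD
  rcases (infinite_union.mp (hu.symm ▸ h.1.1)) with h3 | h3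
  · have := h.2 D ⟨h3, h.1.2.1.mono (compl_subset_compl.mpr hD), f1⟩
    omega
  · have := h.2 (B \ D) ⟨h3, h.1.2.1.mono (compl_subset_compl.mpr sdiff_subset), f2⟩
    omega

include hS hgen in
/-- A set is determined by its boundary and one of its points. -/
theorem eq_of_bd {C D : Set A} (h : bd S C = bd S D) {x : A} (hC : x ∈ C) (hD : x ∈ D) : C = D := by
  have key : ∀ y : A, y ∈ {g | g ∈ C ↔ g ∈ D} := by
    refine cay_ind hS hgen (x := x) (by simp only [mem_ofPred_eq, hC, hD]) ?_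
    intro g hg s hs
    rw [mem_ofPred_eq] at hg ⊢
    have h1 : ∀ {C D : Set A}, bd S C = bd S D → (g ∈ C ↔ g ∈ D) → g * s ∈ C → g * s ∈ D := by
      intro C D h hg h1
      by_cases h2 : g ∈ C
      · by_contra h3
        have h4 : (g, s) ∈ bd S D := ⟨hs, hg.mp h2, h3⟩
        rw [← h] at h4
        exact h4.2.2 h1
      · have h4 : (g * s, s⁻¹) ∈ bd S C := ⟨hS s hs, h1, by rwa [mul_inv_cancel_right]⟩
        rw [h] at h4
        exact h4.2.1
    exact ⟨h1 h hg, h1 h.symm hg.symm⟩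
  ext y
  exact key y

/-- The neighbours of a finite set. -/
theorem nbh_fin {D : Set A} (h : D.Finite) : {y | ∃ g ∈ D, ∃ s ∈ S, y = g * s}.Finite := by
  have h1 : ((fun p : A × A => p.1 * p.2) '' (D ×ˢ (S : Set A))).Finite := (h.prod S.finite_toSet).image _
  refine h1.subset ?_
  rintro y ⟨g, hg, s, hs, rfl⟩
  exact ⟨(g, s), ⟨hg, hs⟩, rfl⟩

include hS hgen in
/-- Finitely many minimal cuts contain `x` and not `y`. -/
theorem Mn.fin (x y : A) : {B | Mn S B ∧ x ∈ B ∧ y ∉ B}.Finite := by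
  by_contra hinf
  set X := {B | Mn S B ∧ x ∈ B ∧ y ∉ B} with hX
  have : Infinite X := infinite_coe_iff.mpr hinf
  obtain ⟨W, hW⟩ : ∃ W : Set A, W = {g | ∀ᶠ C in (Filter.hyperfilter X : Filter X), g ∈ C.1} := ⟨_, rfl⟩
  have hWm : ∀ g, g ∈ W ↔ ∀ᶠ C in (Filter.hyperfilter X : Filter X), g ∈ C.1 := by
    intro g
    rw [hW]
    rfl
  have hWn : ∀ g, g ∉ W ↔ ∀ᶠ C in (Filter.hyperfilter X : Filter X), g ∉ C.1 := by
    intro g
    rw [hWm, ← Ultrafilter.eventually_not]
  have hne : (Filter.hyperfilter X : Filter X).NeBot := (Filter.hyperfilter X).neBot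
  have hb : ∀ e ∈ bd S W, ∀ᶠ C in (Filter.hyperfilter X : Filter X), e ∈ bd S C.1 := by
    rintro ⟨g, s⟩ ⟨hs, hg, hgs⟩
    filter_upwards [(hWm g).mp hg, (hWn _).mp hgs] with C h1 h2
    exact ⟨hs, h1, h2⟩
  obtain ⟨C0, hC0⟩ : X.Nonempty := nonempty_coe_sort.mp inferInstance
  have hk : ∀ C : X, (bd S C.1).ncard = (bd S C0).ncard := fun C =>
    le_antisymm (C.2.1.2 C0 hC0.1.1) (hC0.1.2 C.1 C.2.1.1)
  have hcard : ∀ t : Finset (A × A), (t : Set (A × A)) ⊆ bd S W → t.card ≤ (bd S C0).ncard := by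
    intro t ht
    have h1 : ∀ᶠ C in (Filter.hyperfilter X : Filter X), ∀ e ∈ t, e ∈ bd S C.1 := by
      rw [Filter.eventually_all_finset]
      exact fun e he => hb e (ht he)
    obtain ⟨C, hC⟩ := h1.exists
    rw [← hk C, ← ncard_coe_finset]
    exact ncard_le_ncard hC C.2.1.1.2.2
  have hfin : (bd S W).Finite := by
    by_contra h
    obtain ⟨t, ht, ht'⟩ := Set.Infinite.exists_subset_card_eq h ((bd S C0).ncard + 1)
    have := hcard t ht
    omega
  have hle : (bd S W).ncard ≤ (bd S C0).ncard := by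
    rw [ncard_eq_toFinset_card _ hfin]
    exact hcard _ (by rw [hfin.coe_toFinset])
  have hxW : x ∈ W := (hWm x).mpr (Filter.Eventually.of_forall fun C => C.2.2.1)
  have hyW : y ∉ W := (hWn y).mpr (Filter.Eventually.of_forall fun C => C.2.2.2)
  -- a finite side is a component of the cuts
  have side : ∀ (D : Set A) (f : X → Set A), D.Finite → D.Nonempty → (∀ C, Mn S (f C)) →
      (∀ g, g ∈ D → ∀ᶠ C in (Filter.hyperfilter X : Filter X), g ∈ f C) →
      (∀ g, g ∉ D → ∀ᶠ C in (Filter.hyperfilter X : Filter X), g ∉ f C) → False := by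
    intro D f hD hDn hf h1 h2
    have h3 : ∀ᶠ C in (Filter.hyperfilter X : Filter X), ∀ g ∈ D, g ∈ f C := by
      rw [Filter.eventually_all_finite hD]
      exact h1
    have h4 : ∀ᶠ C in (Filter.hyperfilter X : Filter X), ∀ g ∈ {y | ∃ g ∈ D, ∃ s ∈ S, y = g * s}, g ∉ D → g ∉ f C := by
      rw [Filter.eventually_all_finite (nbh_fin hD)]
      intro g _
      by_cases hg : g ∈ D
      · exact Filter.Eventually.of_forall fun C h => absurd hg h
      · filter_upwards [h2 g hg] with C hC _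
        exact hC
    obtain ⟨C, hC1, hC2⟩ := (h3.and h4).exists
    have h5 : (f C \ D).Nonempty := ((hf C).1.1.sdiff hD).nonempty
    obtain ⟨g, s, hs, hg, hgs⟩ := (hf C).conn hS hgen (D := D) hC1 hDn h5
    exact hC2 (g * s) ⟨g, hg, s, hs, rfl⟩ hgs.2 hgs.1
  by_cases h1 : W.Finite
  · exact side W (fun C => C.1) h1 ⟨x, hxW⟩ (fun C => C.2.1) (fun g hg => (hWm g).mp hg)
      (fun g hg => (hWn g).mp hg)
  by_cases h2 : Wᶜ.Finite
  · refine side Wᶜ (fun C => C.1ᶜ) h2 ⟨y, hyW⟩ (fun C => C.2.1.compl hS) (fun g hg => (hWn g).mp hg) (fun g hg => ?_)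
    rw [mem_compl_iff, not_not] at hg
    filter_upwards [(hWm g).mp hg] with C hC
    exact fun h => h hC
  have h3 : (bd S W).ncard = (bd S C0).ncard := le_antisymm hle (hC0.1.2 W ⟨h1, h2, hfin⟩)
  have h4 : ∀ᶠ C in (Filter.hyperfilter X : Filter X), ∀ e ∈ bd S W, e ∈ bd S C.1 := by
    rw [Filter.eventually_all_finite hfin]
    exact hb
  have h5 : ∀ᶠ C in (Filter.hyperfilter X : Filter X), C.1 = W := by
    filter_upwards [h4] with C hC
    have h6 : bd S W = bd S C.1 := eq_of_subset_of_ncard_le hC (by rw [hk C, h3]) C.2.1.1.2.2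
    exact (eq_of_bd hS hgen h6 hxW C.2.2.1).symm
  have h7 : {C : X | C.1 = W}.Finite := by
    apply Set.Subsingleton.finite
    intro C hC D hD
    exact Subtype.ext (hC.trans hD.symm)
  exact Filter.notMem_hyperfilter_of_finite h7 h5

include hS hgen in
/-- A minimal cut which is not nested with `B` separates two endpoints of the boundary of `B`. -/
theorem Mn.meets {B C : Set A} (hC : Mn S C) (h : ¬ Nst B C) : ∃ x, (∃ e ∈ bd S B, x = e.1 ∨ x = e.1 * e.2) ∧ x ∈ C := by
  have h1 : (C ∩ B).Nonempty := by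
    by_contra h0
    rw [not_nonempty_iff_eq_empty] at h0
    exact h (Or.inr (Or.inl fun x hx hx' => by
      have : x ∈ C ∩ B := ⟨hx', hx⟩
      rw [h0] at this
      exact this))
  have h2 : (C \ (C ∩ B)).Nonempty := by
    by_contra h0
    rw [not_nonempty_iff_eq_empty] at h0
    exact h (Or.inr (Or.inr (Or.inr fun x hx hx' => by
      have : x ∈ C \ (C ∩ B) := ⟨hx', fun h3 => hx h3.2⟩
      rw [h0] at this
      exact this)))
  obtain ⟨g, s, hs, hg, hgs⟩ := hC.conn hS hgen inter_subset_left h1 h2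
  exact ⟨g, ⟨(g, s), ⟨hs, hg.2, fun h3 => hgs.2 ⟨hgs.1, h3⟩⟩, Or.inl rfl⟩, hg.1⟩

include hS hgen in
/-- Finitely many minimal cuts are not nested with a given one. -/
theorem Mn.crossing {B : Set A} (hB : (bd S B).Finite) : {C | Mn S C ∧ ¬ Nst B C}.Finite := by
  have hV : {x | ∃ e ∈ bd S B, x = e.1 ∨ x = e.1 * e.2}.Finite := by
    refine ((hB.image fun e => e.1).union (hB.image fun e => e.1 * e.2)).subset ?_
    rintro x ⟨e, he, rfl | rfl⟩
    · exact Or.inl ⟨e, he, rfl⟩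
    · exact Or.inr ⟨e, he, rfl⟩
  have hU : (⋃ x ∈ {x | ∃ e ∈ bd S B, x = e.1 ∨ x = e.1 * e.2}, ⋃ y ∈ {x | ∃ e ∈ bd S B, x = e.1 ∨ x = e.1 * e.2},
      {C | Mn S C ∧ x ∈ C ∧ y ∉ C}).Finite := hV.biUnion fun x _ => hV.biUnion fun y _ => Mn.fin hS hgen x y
  refine hU.subset ?_
  rintro C ⟨hC, hn⟩
  obtain ⟨x, hx, hxC⟩ := hC.meets hS hgen hn
  obtain ⟨y, hy, hyC⟩ := (hC.compl hS).meets hS hgen (fun h => hn (nst_compl_right.mp h))
  simp only [mem_iUnion]
  exact ⟨x, hx, y, hy, hC, hxC, hyC⟩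

/-- The number of minimal cuts which are not nested with `B`. -/
noncomputable def mu (S : Finset A) (B : Set A) : ℕ := {C | Mn S C ∧ ¬ Nst B C}.ncard

theorem mu_tr (g : A) (B : Set A) : mu S (MelE.tr g B) = mu S B := by
  unfold mu
  have e : {C | Mn S C ∧ ¬ Nst (MelE.tr g B) C} = MelE.tr g '' {C | Mn S C ∧ ¬ Nst B C} := by
    ext C
    rw [mem_image]
    constructor
    · rintro ⟨h1, h2⟩
      refine ⟨MelE.tr g⁻¹ C, ⟨h1.tr g⁻¹, fun h3 => h2 ?_⟩, by rw [tr_tr, mul_inv_cancel, tr_one]⟩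
      have := h3.tr g
      rwa [tr_tr, mul_inv_cancel, tr_one] at this
    · rintro ⟨D, ⟨h1, h2⟩, rfl⟩
      exact ⟨h1.tr g, fun h3 => h2 (nst_tr.mp h3)⟩
  rw [e]
  refine ncard_image_of_injective _ fun C D h => ?_
  have h1 : MelE.tr g⁻¹ (MelE.tr g C) = MelE.tr g⁻¹ (MelE.tr g D) := by rw [h]
  rwa [tr_tr, tr_tr, inv_mul_cancel, tr_one, tr_one] at h1

theorem mu_compl (B : Set A) : mu S Bᶜ = mu S B := by
  unfold mu
  simp only [nst_compl_left]

include hS in
/-- Both corners of two minimal cuts which cross are minimal cuts. -/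
theorem corners {B C : Set A} (hB : Mn S B) (hC : Mn S C) (h1 : (B ∩ C).Infinite) (h2 : (B ∪ C)ᶜ.Infinite) :
    Mn S (B ∩ C) ∧ Mn S (B ∪ C) := by
  have f1 := bd_inter_fin hB.1.2.2 hC.1.2.2
  have f2 := bd_union_fin hB.1.2.2 hC.1.2.2
  have c1 : IsCut S (B ∩ C) := ⟨h1, hB.1.2.1.mono (compl_subset_compl.mpr inter_subset_left), f1⟩
  have c2 : IsCut S (B ∪ C) := ⟨hB.1.1.mono subset_union_left, h2, f2⟩
  have h3 := bd_submod hB.1.2.2 hC.1.2.2
  have h4 := hB.2 _ c1
  have h5 := hB.2 _ c2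
  have h6 := hB.2 _ hC.1
  have h7 := hC.2 _ hB.1
  exact ⟨⟨c1, fun D hD => by have := hB.2 D hD; omega⟩, ⟨c2, fun D hD => by have := hB.2 D hD; omega⟩⟩

/-- A set nested with `B` (or with `C`) is nested with `B ∩ C` or with `B ∪ C`. -/
theorem nst_or {B C D : Set A} (h : Nst B D) : Nst (B ∩ C) D ∨ Nst (B ∪ C) D := by
  rcases h with h | h | h | h
  · exact Or.inl (Or.inl (inter_subset_left.trans h))
  · exact Or.inl (Or.inr (Or.inl (inter_subset_left.trans h)))
  · exact Or.inr (Or.inr (Or.inr (Or.inl ((compl_subset_compl.mpr subset_union_left).trans h))))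
  · exact Or.inr (Or.inr (Or.inr (Or.inr ((compl_subset_compl.mpr subset_union_left).trans h))))

theorem nst_both {B C D : Set A} (h1 : (B ∩ C).Nonempty) (h2 : (B ∪ C)ᶜ.Nonempty) (hB : Nst B D) (hC : Nst C D) :
    Nst (B ∩ C) D ∧ Nst (B ∪ C) D := by
  obtain ⟨x, hx⟩ := h1
  obtain ⟨y, hy⟩ := h2
  have hy1 : y ∉ B := fun h => hy (Or.inl h)
  have hy2 : y ∉ C := fun h => hy (Or.inr h)
  constructor
  · rcases hB with hB | hB | hB | hB
    · exact Or.inl (inter_subset_left.trans hB)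
    · exact Or.inr (Or.inl (inter_subset_left.trans hB))
    · rcases hC with hC | hC | hC | hC
      · exact Or.inl (inter_subset_right.trans hC)
      · exact Or.inr (Or.inl (inter_subset_right.trans hC))
      · refine Or.inr (Or.inr (Or.inl ?_))
        rw [compl_inter]
        exact union_subset hB hC
      · exact absurd (hB hy1) (hC hy2)
    · rcases hC with hC | hC | hC | hC
      · exact Or.inl (inter_subset_right.trans hC)
      · exact Or.inr (Or.inl (inter_subset_right.trans hC))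
      · exact absurd (hC hy2) (hB hy1)
      · refine Or.inr (Or.inr (Or.inr ?_))
        rw [compl_inter]
        exact union_subset hB hC
  · rcases hB with hB | hB | hB | hB
    · rcases hC with hC | hC | hC | hC
      · exact Or.inl (union_subset hB hC)
      · exact absurd (hB hx.1) (hC hx.2)
      · refine Or.inr (Or.inr (Or.inl ?_))
        rw [compl_union]
        exact inter_subset_right.trans hC
      · refine Or.inr (Or.inr (Or.inr ?_))
        rw [compl_union]
        exact inter_subset_right.trans hC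
    · rcases hC with hC | hC | hC | hC
      · exact absurd (hC hx.2) (hB hx.1)
      · exact Or.inr (Or.inl (union_subset hB hC))
      · refine Or.inr (Or.inr (Or.inl ?_))
        rw [compl_union]
        exact inter_subset_right.trans hC
      · refine Or.inr (Or.inr (Or.inr ?_))
        rw [compl_union]
        exact inter_subset_right.trans hC
    · refine Or.inr (Or.inr (Or.inl ?_))
      rw [compl_union]
      exact inter_subset_left.trans hB
    · refine Or.inr (Or.inr (Or.inr ?_))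
      rw [compl_union]
      exact inter_subset_left.trans hB

include hS hgen in
/-- Two minimal cuts with the smallest number of crossings are nested. -/
theorem nested_aux {B C : Set A} (hB : Mn S B) (hC : Mn S C) (h1 : (B ∩ C).Infinite) (h2 : (B ∪ C)ᶜ.Infinite)
    (hm : ∀ D, Mn S D → mu S B ≤ mu S D) (hn : mu S C = mu S B) : Nst B C := by
  by_contra hcr
  obtain ⟨mX, mY⟩ := corners hS hB hC h1 h2
  have fB := Mn.crossing hS hgen hB.1.2.2
  have fC := Mn.crossing hS hgen hC.1.2.2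
  have fX := Mn.crossing hS hgen mX.1.2.2
  have fY := Mn.crossing hS hgen mY.1.2.2
  have u1 : {D | Mn S D ∧ ¬ Nst (B ∩ C) D} ∪ {D | Mn S D ∧ ¬ Nst (B ∪ C) D} ⊆
      ({D | Mn S D ∧ ¬ Nst B D} ∪ {D | Mn S D ∧ ¬ Nst C D}) \ {B} := by
    rintro D hD
    have hD' : Mn S D ∧ ¬ (Nst (B ∩ C) D ∧ Nst (B ∪ C) D) := by
      rcases hD with hD | hD
      · exact ⟨hD.1, fun h => hD.2 h.1⟩
      · exact ⟨hD.1, fun h => hD.2 h.2⟩
    refine ⟨?_, ?_⟩
    · by_contra h0
      have h3 : Nst B D := by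
        by_contra h4
        exact h0 (Or.inl ⟨hD'.1, h4⟩)
      have h4 : Nst C D := by
        by_contra h5
        exact h0 (Or.inr ⟨hD'.1, h5⟩)
      exact hD'.2 (nst_both h1.nonempty h2.nonempty h3 h4)
    · rintro rfl
      refine hD'.2 ⟨Or.inl inter_subset_left, ?_⟩
      exact (Nst.symm (Or.inl subset_union_left))
  have i1 : {D | Mn S D ∧ ¬ Nst (B ∩ C) D} ∩ {D | Mn S D ∧ ¬ Nst (B ∪ C) D} ⊆
      {D | Mn S D ∧ ¬ Nst B D} ∩ {D | Mn S D ∧ ¬ Nst C D} := by
    rintro D ⟨hD1, hD2⟩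
    refine ⟨⟨hD1.1, fun h => ?_⟩, ⟨hD1.1, fun h => ?_⟩⟩
    · rcases nst_or (C := C) h with h3 | h3
      · exact hD1.2 h3
      · exact hD2.2 h3
    · rcases nst_or (C := B) h with h3 | h3
      · rw [inter_comm] at h3
        exact hD1.2 h3
      · rw [union_comm] at h3
        exact hD2.2 h3
  have hBC : B ∈ {D | Mn S D ∧ ¬ Nst B D} ∪ {D | Mn S D ∧ ¬ Nst C D} := Or.inr ⟨hB, fun h => hcr h.symm⟩
  have c1 : ({D | Mn S D ∧ ¬ Nst (B ∩ C) D} ∪ {D | Mn S D ∧ ¬ Nst (B ∪ C) D}).ncard <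
      ({D | Mn S D ∧ ¬ Nst B D} ∪ {D | Mn S D ∧ ¬ Nst C D}).ncard := by
    refine lt_of_le_of_lt (ncard_le_ncard u1 ((fB.union fC).subset sdiff_subset)) ?_
    exact ncard_sdiff_singleton_lt_of_mem hBC (fB.union fC)
  have c2 := ncard_le_ncard i1 (fB.inter_of_left _)
  have c3 := ncard_union_add_ncard_inter _ _ fB fC
  have c4 := ncard_union_add_ncard_inter _ _ fX fY
  have hX := hm _ mX
  have hY := hm _ mY
  unfold mu at hX hY hn
  omega

include hS hgen in
theorem nested_of_min {B C : Set A} (hB : Mn S B) (hC : Mn S C) (hm : ∀ D, Mn S D → mu S B ≤ mu S D)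
    (hn : mu S C = mu S B) : Nst B C := by
  by_cases h1 : (B ∩ C).Infinite ∧ (B ∪ C)ᶜ.Infinite
  · exact nested_aux hS hgen hB hC h1.1 h1.2 hm hn
  · have h2 : (B ∩ Cᶜ).Infinite ∧ (B ∪ Cᶜ)ᶜ.Infinite := by
      have e1 : (B ∩ C) ∪ (B ∩ Cᶜ) = B := inter_union_compl B C
      have e2 : (B ∪ C)ᶜ ∪ (B ∪ Cᶜ)ᶜ = Bᶜ := by
        rw [compl_union, compl_union, compl_compl, union_comm]
        exact inter_union_compl Bᶜ C
      have e3 : (B ∩ C) ∪ (B ∪ Cᶜ)ᶜ = C := by
        rw [compl_union, compl_compl, inter_comm B C, inter_comm Bᶜ C]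
        exact inter_union_compl C B
      have e4 : (B ∪ C)ᶜ ∪ (B ∩ Cᶜ) = Cᶜ := by
        rw [compl_union, inter_comm Bᶜ, inter_comm B, union_comm]
        exact inter_union_compl Cᶜ B
      have i1 := infinite_union.mp (e1.symm ▸ hB.1.1)
      have i2 := infinite_union.mp (e2.symm ▸ hB.1.2.1)
      have i3 := infinite_union.mp (e3.symm ▸ hC.1.1)
      have i4 := infinite_union.mp (e4.symm ▸ hC.1.2.1)
      tauto
    exact nst_compl_right.mp (nested_aux hS hgen hB (hC.compl hS) h2.1 h2.2 hm (by rw [mu_compl, hn]))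

include hS hgen in
/-- If there is a cut, there is a minimal cut which is nested with all its translates. -/
theorem exists_min_nested {B : Set A} (hB : IsCut S B) : ∃ C, Mn S C ∧ ∀ g, Nst C (MelE.tr g C) := by
  classical
  have h1 : ∃ n, ∃ C, IsCut S C ∧ (bd S C).ncard = n := ⟨_, B, hB, rfl⟩
  obtain ⟨C, hC, hn⟩ := Nat.find_spec h1
  have hC' : Mn S C := ⟨hC, fun D hD => by
    rw [hn]
    exact Nat.find_min' h1 ⟨D, hD, rfl⟩⟩
  have h2 : ∃ n, ∃ C, Mn S C ∧ mu S C = n := ⟨_, C, hC', rfl⟩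
  obtain ⟨E, hE, hn'⟩ := Nat.find_spec h2
  refine ⟨E, hE, fun g => nested_of_min hS hgen hE (hE.tr g) (fun D hD => ?_) (mu_tr g E)⟩
  rw [hn']
  exact Nat.find_min' h2 ⟨D, hD, rfl⟩

open Pointwise

theorem tr_eq (g : A) (B : Set A) : MelE.tr g B = g • B := by
  ext x
  rw [mem_tr, Set.mem_smul_set_iff_inv_smul_mem, smul_eq_mul]

theorem exists_nested (S : Finset A) (hS : ∀ s ∈ S, s⁻¹ ∈ S) (hgen : Subgroup.closure (S : Set A) = ⊤)
    (B : Set A) (hB : B.Infinite) (hBc : Bᶜ.Infinite) (hfin : (bd S B).Finite) :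
    ∃ C : Set A, C.Infinite ∧ Cᶜ.Infinite ∧ (bd S C).Finite ∧ ∀ g : A, Nest C (g • C) := by
  obtain ⟨C, hC, hn⟩ := exists_min_nested hS hgen ⟨hB, hBc, hfin⟩
  refine ⟨C, hC.1.1, hC.1.2.1, hC.1.2.2, fun g => ?_⟩
  have h := hn g
  rw [tr_eq] at h
  rcases h with h | h | h | h
  · exact Or.inl h
  · exact Or.inr (Or.inr (Or.inl (subset_compl_iff_disjoint_right.mp h)))
  · exact Or.inr (Or.inr (Or.inr (compl_subset_iff_union.mp h)))
  · exact Or.inr (Or.inl (compl_subset_compl.mp h))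

include hS hgen in
/-- Finitely many translates separate two points. -/
theorem fin_sep {C : Set A} (hC : (bd S C).Finite) (x y : A) : {g : A | x ∈ g • C ∧ y ∉ g • C}.Finite := by
  refine cay_ind hS hgen (D := {y | {g : A | x ∈ g • C ∧ y ∉ g • C}.Finite}) (x := x) ?_ ?_ y
  · rw [mem_ofPred_eq]
    convert Set.finite_empty
    ext g
    simp
  · intro y hy s hs
    rw [mem_ofPred_eq] at hy ⊢
    have h1 : {g : A | y ∈ g • C ∧ y * s ∉ g • C}.Finite := by
      have h2 : Function.Injective fun g : A => (g⁻¹ * y, s) := by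
        intro g h e
        simpa using e
      refine (hC.preimage (f := fun g : A => (g⁻¹ * y, s)) h2.injOn).subset ?_
      rintro g ⟨h3, h4⟩
      rw [← tr_eq, mem_tr] at h3 h4
      exact ⟨hs, h3, by rwa [mul_assoc]⟩
    refine (hy.union h1).subset ?_
    rintro g ⟨h3, h4⟩
    by_cases h5 : y ∈ g • C
    · exact Or.inr ⟨h5, h4⟩
    · exact Or.inl ⟨h3, h5⟩

end

end Pool.Agent.MelE
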