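import Pool.Agent.MelE.Def

/-!
# A cut from a derivation (module E4)

`K = ZMod 2`, `A` infinite, `(k, u, d)` as in `Der`.
* Some component `d _ m` is not inner: suppose `d g m = (g - 1) * r m` for all `g, m`.  Then
  `(g - 1) * (∑ m, r m * (u m - 1)) = g - 1`, so `(g - 1) * (1 - e) = 0` for all `g`, `e = ∑ m, r m * (u m - 1)`: the coefficients
  of `1 - e` are constant (`coeff (g⁻¹ x) = coeff x`); the support is finite and `A` infinite: `1 - e = 0`.  The
  augmentation (sum of the coefficients; `MonoidAlgebra.lift` or `mapDomainRingHom` to the trivial group) of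
  `e` is `0`, of `1` is `1`: contradiction.
* `D g = d g m` for such `m`: `D (g * h) = D g + g * D h`, `D 1 = 0`.  Put `F x = (D x).coeff x`.  Then for all `a`, `x`
  `F x = F (a⁻¹ x) + (D a).coeff x` (from `D x = D (a * (a⁻¹ * x)) = D a + a * D (a⁻¹ * x)`, at `x`).
  `P = {x | F x ≠ 0}`.  `P` is infinite: otherwise `r = ∑ F x • x` is in `K[A]` and `D a = r - a * r = (a - 1) * r`
  (characteristic two), inner.  `Pᶜ` is infinite: otherwise the same with `F + 1`.
* `B = {x | x⁻¹ ∈ P}`: infinite with infinite complement; `bd S B`: `x⁻¹ ∈ P`, `(x s)⁻¹ = s⁻¹ x⁻¹ ∉ P`: `F (x⁻¹) ≠ F (s⁻¹ x⁻¹)`, so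
  `(D s).coeff (x⁻¹) ≠ 0`: finitely many `x` for each `s` of the finite set `S`.
-/

open Pointwise

namespace Pool.Agent.MelE

variable {A : Type} [Group A]

theorem coeff_sm (g x : A) (y : MonoidAlgebra (ZMod 2) A) :
    (MonoidAlgebra.single g (1 : ZMod 2) * y).coeff x = y.coeff (g⁻¹ * x) := by
  rw [MonoidAlgebra.coeff_single_mul_eq_mul_coeff (g⁻¹ * x), one_mul]
  intro m _
  constructor
  · rintro rfl
    rw [inv_mul_cancel_left]
  · rintro rfl
    rw [mul_inv_cancel_left]

theorem z2 {a b : ZMod 2} (h : ¬ (a ≠ 0 ↔ b ≠ 0)) : a - b ≠ 0 := by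
  revert a b; decide

theorem z2' (a : ZMod 2) (h : a ≠ 0) : a = 1 := by
  revert a; decide

/-- Not every component is inner. -/
theorem not_inner [Infinite A] {k : ℕ} (u : Fin k → A) (d : A → Fin k → MonoidAlgebra (ZMod 2) A)
    (hs : ∀ g, ∑ m, d g m * (MonoidAlgebra.single (u m) (1 : ZMod 2) - 1) = MonoidAlgebra.single g (1 : ZMod 2) - 1)
    (r : Fin k → MonoidAlgebra (ZMod 2) A)
    (hr : ∀ g m, d g m = (MonoidAlgebra.single g (1 : ZMod 2) - 1) * r m) : False := by
  classical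
  set w : MonoidAlgebra (ZMod 2) A := 1 - ∑ m, r m * (MonoidAlgebra.single (u m) (1 : ZMod 2) - 1) with hw
  have h1 : ∀ g, MonoidAlgebra.single g (1 : ZMod 2) * w = w := by
    intro g
    have h2 := hs g
    simp only [hr, mul_assoc] at h2
    rw [← Finset.mul_sum] at h2
    have h3 : (MonoidAlgebra.single g (1 : ZMod 2) - 1) * w = 0 := by
      rw [hw, mul_sub, mul_one, h2, sub_self]
    rw [sub_mul, one_mul, sub_eq_zero] at h3
    exact h3
  have h2 : ∀ g x, w.coeff (g⁻¹ * x) = w.coeff x := by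
    intro g x
    rw [← coeff_sm, h1]
  have h3 : w = 0 := by
    by_contra hne
    have h4 : w.coeff ≠ 0 := fun h => hne (MonoidAlgebra.coeff_eq_zero.1 h)
    obtain ⟨x, hx⟩ := Finsupp.ne_iff.1 h4
    rw [Finsupp.coe_zero, Pi.zero_apply] at hx
    have h5 : ∀ y, y ∈ w.coeff.support := by
      intro y
      rw [Finsupp.mem_support_iff, ← h2 (x * y⁻¹)⁻¹ y]
      simpa using hx
    exact Set.infinite_univ (α := A) ((w.coeff.support.finite_toSet).subset (fun y _ => h5 y))
  -- the augmentation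
  let ε : MonoidAlgebra (ZMod 2) A →ₐ[ZMod 2] ZMod 2 := MonoidAlgebra.lift (ZMod 2) (ZMod 2) A 1
  have h4 : ε w = 1 := by
    rw [hw, map_sub, map_one, map_sum]
    have : ∀ m, ε (r m * (MonoidAlgebra.single (u m) (1 : ZMod 2) - 1)) = 0 := by
      intro m
      rw [map_mul, map_sub, map_one]
      have : ε (MonoidAlgebra.single (u m) (1 : ZMod 2)) = 1 := by
        simp [ε]
      rw [this, sub_self, mul_zero]
    simp [this]
  rw [h3, map_zero] at h4
  exact zero_ne_one h4

theorem cut_of_der {A : Type} [Group A] [Infinite A] (hd : Der (ZMod 2) A) (S : Finset A) :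
    ∃ B : Set A, B.Infinite ∧ Bᶜ.Infinite ∧ (bd S B).Finite := by
  classical
  obtain ⟨k, u, d, hd, hs⟩ := hd
  have hdm : ∀ g h m, d (g * h) m = d g m + MonoidAlgebra.single g (1 : ZMod 2) * d h m := by
    intro g h m
    rw [hd]
    rfl
  -- the functions
  let F : Fin k → A → ZMod 2 := fun m x => (d x m).coeff x
  have hF : ∀ m a x, F m x = F m (a⁻¹ * x) + (d a m).coeff x := by
    intro m a x
    have h1 := hdm a (a⁻¹ * x) m
    rw [mul_inv_cancel_left] at h1
    change (d x m).coeff x = (d (a⁻¹ * x) m).coeff (a⁻¹ * x) + (d a m).coeff x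
    rw [h1, MonoidAlgebra.coeff_add, Finsupp.add_apply, coeff_sm, add_comm]
  -- almost constant components are inner
  have key : ∀ m, (∃ c : ZMod 2, {x | F m x ≠ c}.Finite) →
      ∃ r : MonoidAlgebra (ZMod 2) A, ∀ g, d g m = (MonoidAlgebra.single g (1 : ZMod 2) - 1) * r := by
    rintro m ⟨c, hc⟩
    refine ⟨MonoidAlgebra.ofCoeff (-(Finsupp.onFinset hc.toFinset (fun x => F m x - c) ?_)), ?_⟩
    · intro x hx
      rw [Set.Finite.mem_toFinset, Set.mem_ofPred_eq]
      exact fun h => hx (by rw [h, sub_self])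
    · intro g
      ext x
      rw [sub_mul, one_mul, MonoidAlgebra.coeff_sub, Finsupp.sub_apply, coeff_sm, MonoidAlgebra.coeff_ofCoeff,
        Finsupp.neg_apply, Finsupp.neg_apply, Finsupp.onFinset_apply, Finsupp.onFinset_apply, hF m g x]
      ring
  have hex : ∃ m, ∀ c : ZMod 2, {x | F m x ≠ c}.Infinite := by
    by_contra hcon
    push Not at hcon
    have : ∀ m, ∃ r : MonoidAlgebra (ZMod 2) A, ∀ g, d g m = (MonoidAlgebra.single g (1 : ZMod 2) - 1) * r := by
      intro m
      refine key m ?_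
      obtain ⟨c, hc⟩ := hcon m
      exact ⟨c, by simpa using hc⟩
    choose r hr using this
    exact not_inner u d hs r (fun g m => hr m g)
  obtain ⟨m, hm⟩ := hex
  refine ⟨{x | F m x⁻¹ ≠ 0}, ?_, ?_, ?_⟩
  · have := hm 0
    have h2 := this.image (f := fun x : A => x⁻¹) (inv_injective.injOn)
    refine h2.mono ?_
    rintro _ ⟨x, hx, rfl⟩
    rw [Set.mem_ofPred_eq] at hx ⊢
    simpa using hx
  · have := hm 1
    have h2 := this.image (f := fun x : A => x⁻¹) (inv_injective.injOn)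
    refine h2.mono ?_
    rintro _ ⟨x, hx, rfl⟩
    rw [Set.mem_ofPred_eq] at hx
    rw [Set.mem_compl_iff, Set.mem_ofPred_eq, inv_inv]
    exact fun h => hx (z2' _ h)
  · have h1 : ∀ s : A, {x : A | (d s m).coeff x⁻¹ ≠ 0}.Finite := by
      intro s
      refine (((d s m).coeff.support.finite_toSet).image (fun x : A => x⁻¹)).subset ?_
      intro x hx
      rw [Set.mem_ofPred_eq] at hx
      exact ⟨x⁻¹, by simpa using hx, inv_inv x⟩
    have h2 : (⋃ s ∈ S, (fun x : A => (x, s)) '' {x : A | (d s m).coeff x⁻¹ ≠ 0}).Finite :=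
      Set.Finite.biUnion S.finite_toSet (fun s _ => (h1 s).image _)
    refine h2.subset ?_
    rintro ⟨x, s⟩ ⟨h3, h4, h5⟩
    rw [Set.mem_ofPred_eq] at h4 h5
    simp only at h3 h4 h5
    rw [Set.mem_iUnion₂]
    refine ⟨s, h3, x, ?_, rfl⟩
    rw [Set.mem_ofPred_eq]
    have h6 := hF m s x⁻¹
    have h7 : F m x⁻¹ - F m (s⁻¹ * x⁻¹) ≠ 0 := by
      refine z2 ?_
      rw [← mul_inv_rev]
      exact fun h => h5 (h.1 h4)
    rw [h6] at h7
    simpa using h7

end Pool.Agent.MelE
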