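import Pool.Agent.MelE.Def
import Pool.Agent.MelR.Fin

/-!
# Retracts of one-relator groups: the conclusion in derivation form

The proofs of `proj_of_matrix`, `proj_of_zero`, `proj_of_good` (module M5 of MelR, helper21) and of `core`, `virt` give
the derivation itself.
-/

set_option linter.unusedSectionVars false

open Finset

namespace Pool.Agent.MelE

open Monoid (CoprodI)
open Pool.Agent.MelG (HasRel)
open Pool.Agent.MelD (fox coc coc_mul coc_one coc_inv coc_eq_sum fundamental map_fox)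
open Pool.Agent.MelR

variable {ι : Type} [DecidableEq ι] {G : ι → Type} [∀ i, Group (G i)] {K : Type} [Field K]
variable {N : Type} [Group N] {k : ℕ} (X : Ret N G k)

theorem der_of_matrix (i : ι) (V : Fin k → Fin k → MonoidAlgebra K (G i))
    (h1 : ∀ m, ∑ j, X.δ K i j * V j m = 0)
    (h2 : ∀ j, ∑ m, V j m * (X.fG K i (FreeGroup.of m) - 1) = X.fG K i (FreeGroup.of j) - 1) : Der K (G i) := by
  have hr : coc (X.fG K i) V X.r = 0 := by
    rw [coc_eq_sum]
    funext m
    rw [Finset.sum_apply]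
    exact h1 m
  refine ⟨k, fun m => pr i (X.ρ (X.q (FreeGroup.of m))),
    fun g => coc (X.fG K i) V (X.lf (X.s (CoprodI.of g))), ?_, ?_⟩
  · intro g h
    have h3 : X.fG K i (X.lf (X.s (CoprodI.of g))) = MonoidAlgebra.single g (1 : K) := by
      rw [fG_apply, X.q_lf, X.hs, pr_of]
    rw [← h3, ← coc_mul]
    refine coc_congr X i V hr _ _ ?_
    rw [X.q_lf, map_mul, map_mul, map_mul, X.q_lf, X.q_lf]
  · intro g
    have h3 : X.fG K i (X.lf (X.s (CoprodI.of g))) = MonoidAlgebra.single g (1 : K) := by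
      rw [fG_apply, X.q_lf, X.hs, pr_of]
    show ∑ m, coc (X.fG K i) V (X.lf (X.s (CoprodI.of g))) m *
      (MonoidAlgebra.single (pr i (X.ρ (X.q (FreeGroup.of m)))) (1 : K) - 1) = MonoidAlgebra.single g (1 : K) - 1
    rw [← h3, fundamental, coc_eq_sum]
    simp only [Finset.sum_apply, Pi.smul_apply, smul_eq_mul, Finset.sum_mul, mul_assoc]
    rw [Finset.sum_comm]
    refine Finset.sum_congr rfl fun j _ => ?_
    rw [← Finset.mul_sum]
    exact congrArg _ (h2 j)

theorem der_of_zero (h : ∀ m, X.D K m = 0) (i : ι) : Der K (G i) := by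
  have hδ : ∀ m, X.δ K i m = 0 := fun m => by rw [← prj_D, h, map_zero]
  refine der_of_matrix X i (fun j => Pi.single j 1) (fun m => ?_) (fun j => ?_)
  · simp only [hδ, zero_mul, sum_const_zero]
  · rw [Finset.sum_eq_single j]
    · rw [Pi.single_eq_same, one_mul]
    · intro m _ hm
      rw [Pi.single_eq_of_ne hm, zero_mul]
    · intro hj
      exact absurd (mem_univ j) hj

theorem der_of_good (i : ι) (c : MonoidAlgebra K (CoprodI G)) (hc : X.Good i c)
    (h : ∃ y : Fin k → MonoidAlgebra K (G i), prj K i c = ∑ j, X.δ K i j * y j) : Der K (G i) := by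
  obtain ⟨y, hy⟩ := h
  refine der_of_matrix X i (fun j m => prj K i (X.W K i j m) - y j * X.δ K i m) (fun m => ?_) (fun j => ?_)
  · have h1 : ∑ j, X.δ K i j * prj K i (X.W K i j m) = prj K i c * X.δ K i m := by
      have := congrArg (prj K i) (hc m)
      rw [map_sum, map_mul, prj_D] at this
      rw [← this]
      refine Finset.sum_congr rfl fun j _ => ?_
      rw [map_mul, prj_inc]
    simp only [mul_sub, sum_sub_distrib, ← mul_assoc]
    rw [h1, hy, Finset.sum_mul, sub_self]
  · have h1 : ∑ m, prj K i (X.W K i j m) * (X.fG K i (FreeGroup.of m) - 1) = X.fG K i (FreeGroup.of j) - 1 := by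
      have h2 : X.fG K i (X.lf (X.s (CoprodI.of (pr i (X.ρ (X.q (FreeGroup.of j))))))) = X.fG K i (FreeGroup.of j) := by
        rw [fG_apply, fG_apply, X.q_lf, X.hs, pr_of]
      rw [← h2, fundamental]
      refine Finset.sum_congr rfl fun m _ => ?_
      unfold Ret.W
      rw [prj_fox]
    have h3 : ∑ m, X.δ K i m * (X.fG K i (FreeGroup.of m) - 1) = 0 := by
      unfold Ret.δ
      rw [← fundamental, fG_apply, q_r, map_one, map_one]
      exact sub_self _
    simp only [sub_mul, sum_sub_distrib, mul_assoc]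
    rw [← Finset.mul_sum, h3, mul_zero, sub_zero, h1]

theorem core_reg (hdom : ∀ i, NoZeroDivisors (MonoidAlgebra K (G i)))
    (hreg : ∀ z : MonoidAlgebra K (CoprodI G), (∀ m, z * X.D K m = 0) → z = 0)
    {i l : ι} (hil : i ≠ l) : Der K (G i) ∨ Der K (G l) := by
  obtain ⟨ci, cl, a, h1, h2, h3, h4⟩ := exists_alg_reg X hreg hil
  by_contra hcon
  obtain ⟨hi, hl⟩ := not_or.mp hcon
  obtain ⟨Φ₀, p0, q0, r0⟩ := exists_form i (X.δ K i) ci fun h => hi (der_of_good X i ci h1 h)
  obtain ⟨Φ₁, p1, q1, r1⟩ := exists_form l (X.δ K l) cl fun h => hl (der_of_good X l cl h2 h)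
  rcases lemL hdom hil Φ₀ Φ₁ q0 q1 a (1 - a) (add_sub_cancel a 1) (r0 a h3) (r1 (1 - a) h4) with h | h
  · exact p0 h
  · exact p1 h

theorem core {ι : Type} [DecidableEq ι] {G : ι → Type} [∀ i, Group (G i)] {K : Type} [Field K]
    {N : Type} [Group N] {k : ℕ} (X : Ret N G k) (hdom : ∀ i, NoZeroDivisors (MonoidAlgebra K (G i)))
    {i l : ι} (hil : i ≠ l) : Der K (G i) ∨ Der K (G l) := by
  have hK : NoZeroDivisors (MonoidAlgebra K (CoprodI G)) := dom_free hdom
  by_cases hD : ∀ m, X.D K m = 0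
  · exact Or.inl (der_of_zero X hD i)
  obtain ⟨m, hm⟩ := not_forall.mp hD
  exact core_reg X hdom (fun z hz => (mul_eq_zero.mp (hz m)).resolve_right hm) hil

end Pool.Agent.MelE
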