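import Pool.Agent.MelL.UP
import Pool.Agent.MelE.Def

/-!
# Lemmas for the induction (module E5b)

* `der_retract`: `(k, u, d)` for `A`, `s : H → A`, `ρ : A → H` with `ρ (s x) = x`: take `ρ (u m)` and `h ↦ ρ (d (s h) m)`
  (`MonoidAlgebra.mapDomainRingHom`).
* `tf_of_locInd`: a cyclic finite subgroup has no non trivial homomorphism to `ℚ`.
* `free_coprod`: `CoprodI` of free groups is free (Mathlib), `IsFreeGroup.ofMulEquiv`.
* `free_cyclic`: `FreeGroup Unit` is infinite cyclic; `A` trivial is also possible (`s = 1`).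
-/

open Pointwise Monoid

namespace Pool.Agent.MelE

open Pool.Agent.MelL (LocInd)

theorem der_retract {K A H : Type} [Field K] [Group A] [Group H] (s : H →* A) (ρ : A →* H) (hρ : ∀ x, ρ (s x) = x)
    (h : Der K A) : Der K H := by
  obtain ⟨k, u, d, h1, h2⟩ := h
  let P : MonoidAlgebra K A →+* MonoidAlgebra K H := MonoidAlgebra.mapDomainRingHom K ρ
  have hP : ∀ g, P (MonoidAlgebra.single g (1 : K)) = MonoidAlgebra.single (ρ g) 1 := by
    intro g
    show MonoidAlgebra.mapDomainRingHom K ρ (MonoidAlgebra.single g (1 : K)) = _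
    rw [MonoidAlgebra.mapDomainRingHom_apply, MonoidAlgebra.mapDomain_single]
  refine ⟨k, fun m => ρ (u m), fun b m => P (d (s b) m), fun g g' => ?_, fun g => ?_⟩
  · funext m
    have h3 := congrArg P (congrFun (h1 (s g) (s g')) m)
    rw [Pi.add_apply, Pi.smul_apply, smul_eq_mul, map_add, map_mul, hP, hρ, ← map_mul s] at h3
    exact h3
  · have h3 := congrArg P (h2 (s g))
    rw [map_sum, map_sub, hP, hρ, map_one] at h3
    rw [← h3]
    refine Finset.sum_congr rfl fun m _ => ?_
    rw [map_mul, map_sub, hP, map_one]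

theorem tf_of_locInd {A : Type} [Group A] (h : LocInd A) : ∀ g : A, ∀ n : ℕ, 0 < n → g ^ n = 1 → g = 1 := by
  intro g m hm hg
  by_contra hne
  obtain ⟨χ, hχ⟩ := h (Subgroup.zpowers g) ⟨{g}, by rw [Finset.coe_singleton, Subgroup.zpowers_eq_closure]⟩
    (fun h => hne (Subgroup.zpowers_eq_bot.mp h))
  apply hχ
  ext ⟨x, hx⟩
  obtain ⟨n, rfl⟩ := Subgroup.mem_zpowers_iff.mp hx
  have h1 : (⟨g ^ n, hx⟩ : Subgroup.zpowers g) ^ m = 1 := by
    apply Subtype.ext
    show (g ^ n) ^ m = 1
    rw [← zpow_natCast, ← zpow_mul, mul_comm, zpow_mul, zpow_natCast, hg, one_zpow]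
  have h2 := congrArg χ h1
  rw [map_pow, map_one] at h2
  have h3 : m • (χ ⟨g ^ n, hx⟩).toAdd = 0 := by
    rw [← toAdd_pow, h2]
    rfl
  rcases smul_eq_zero.mp h3 with h4 | h4
  · omega
  · exact congrArg Multiplicative.ofAdd h4

theorem free_coprod {A : Type} [Group A] (H : Bool → Subgroup A)
    (hH : Function.Bijective (CoprodI.lift fun b => (H b).subtype)) (hf : ∀ b, IsFreeGroup (H b)) : IsFreeGroup A :=
  IsFreeGroup.ofMulEquiv (MulEquiv.ofBijective (CoprodI.lift fun b => (H b).subtype) hH)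

theorem free_cyclic {A : Type} [Group A] (tf : ∀ g : A, ∀ n : ℕ, 0 < n → g ^ n = 1 → g = 1) (s : A)
    (hs : ∀ g, g ∈ Subgroup.zpowers s) : IsFreeGroup A := by
  by_cases h1 : s = 1
  · have h2 : ∀ x : A, x = 1 := by
      intro x
      have hx := hs x
      rw [h1, Subgroup.zpowers_one_eq_bot] at hx
      exact Subgroup.mem_bot.mp hx
    have e : FreeGroup Empty ≃* A :=
      { toFun := fun _ => 1
        invFun := fun _ => 1
        left_inv := fun x => Subsingleton.elim _ _
        right_inv := fun x => (h2 x).symm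
        map_mul' := fun _ _ => (mul_one 1).symm }
    exact IsFreeGroup.ofMulEquiv e
  · let f : FreeGroup Unit →* A := FreeGroup.lift fun _ => s
    have hf : ∀ n : ℤ, f (FreeGroup.of () ^ n) = s ^ n := by
      intro n
      rw [map_zpow]
      show (FreeGroup.lift (fun _ => s) (FreeGroup.of ())) ^ n = s ^ n
      rw [FreeGroup.lift_apply_of]
    have hpow : ∀ w : FreeGroup Unit, ∃ n : ℤ, w = FreeGroup.of () ^ n := by
      intro w
      exact ⟨FreeGroup.freeGroupUnitEquivInt w, (FreeGroup.freeGroupUnitEquivInt.symm_apply_apply w).symm⟩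
    refine IsFreeGroup.ofMulEquiv (MulEquiv.ofBijective f ⟨?_, ?_⟩)
    · rw [injective_iff_map_eq_one]
      intro w hw
      obtain ⟨n, rfl⟩ := hpow w
      rw [hf] at hw
      by_cases hn : n = 0
      · rw [hn, zpow_zero]
      · exfalso
        have h3 : s ^ n.natAbs = 1 := by
          rcases Int.natAbs_eq n with h4 | h4
          · rw [h4, zpow_natCast] at hw
            exact hw
          · rw [h4, zpow_neg, zpow_natCast, inv_eq_one] at hw
            exact hw
        exact h1 (tf s n.natAbs (Int.natAbs_pos.mpr hn) h3)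
    · intro x
      obtain ⟨n, rfl⟩ := Subgroup.mem_zpowers_iff.mp (hs x)
      exact ⟨FreeGroup.of () ^ n, hf n⟩

end Pool.Agent.MelE
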