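import Pool.Agent.MelE.SplitCore

/-!
# Splitting of a torsion-free group along a nested cut

`exists_split`: `A` is infinite cyclic or the free product of two non trivial subgroups.  The stabilizers of the
vertices at the beginning and at the end of `C` are `Av = {a | Rel (a • C) C}` and `Aw = {b | Rel (b • Cᶜ) Cᶜ}`.
If no `t` has `Rel (t • Cᶜ) C` then `A` is generated by `Av` and `Aw`, and it is their free product by ping-pong with
the sets `Cᶜ`, `C`.  Otherwise `A` is generated by `Av` and `t`, and `A` is the free product of `Av` and `zpowers t`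
by ping-pong with `Cᶜ ∩ t • C` and `C ∪ t • Cᶜ`.
-/

open Pointwise

set_option linter.unusedSectionVars false

namespace Pool.Agent.MelE

namespace Sp

variable {A : Type} [Group A] {C : Set A}

/-- the stabilizer of the vertex at which the half space `X` begins -/
def stab (hC : C.Nonempty) (hC' : Cᶜ.Nonempty) (hn : ∀ g : A, Nest C (g • C)) {X : Set A} (hX : Half C X) :
    Subgroup A where
  carrier := {a | Rel C (a • X) X}
  one_mem' := Or.inl (one_smul _ _)
  mul_mem' := by
    intro a b ha hb
    have h1 := Rel.smul a hb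
    rw [smul_smul] at h1
    exact h1.trans hC hC' hn (half_smul _ hX) (half_smul _ hX) hX ha
  inv_mem' := by
    intro a ha
    have h1 := Rel.smul a⁻¹ ha
    rw [inv_smul_smul] at h1
    exact h1.symm

theorem eq_one (htf : ∀ g : A, ∀ m : ℕ, 0 < m → g ^ m = 1 → g = 1)
    (hfin : ∀ x y : A, {g : A | x ∈ g • C ∧ y ∉ g • C}.Finite) (hC : C.Nonempty) (hC' : Cᶜ.Nonempty) {g : A}
    (h : g • C = C) : g = 1 := by
  obtain ⟨x, hx⟩ := hC
  obtain ⟨y, hy⟩ := hC'
  by_contra hne
  have h1 : ∀ n : ℕ, g ^ n • C = C := by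
    intro n
    induction n with
    | zero => rw [pow_zero, one_smul]
    | succ n ih => rw [pow_succ, ← smul_smul, h, ih]
  have h2 : Function.Injective fun n : ℕ => g ^ n := by
    rw [injective_pow_iff_not_isOfFinOrder]
    intro h3
    obtain ⟨m, hm, h4⟩ := isOfFinOrder_iff_pow_eq_one.1 h3
    exact hne (htf g m hm h4)
  refine Set.infinite_range_of_injective h2 ((hfin x y).subset ?_)
  rintro _ ⟨n, rfl⟩
  rw [Set.mem_ofPred_eq, h1]
  exact ⟨hx, hy⟩

theorem ne_compl (htf : ∀ g : A, ∀ m : ℕ, 0 < m → g ^ m = 1 → g = 1)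
    (hfin : ∀ x y : A, {g : A | x ∈ g • C ∧ y ∉ g • C}.Finite) (hC : C.Nonempty) (hC' : Cᶜ.Nonempty) {g : A}
    (h : g • C = Cᶜ) : False := by
  have h1 : (g * g) • C = C := by
    rw [← smul_smul, h, Set.smul_set_compl, h, compl_compl]
  have h2 : g * g = 1 := eq_one htf hfin hC hC' h1
  have h3 : g = 1 := htf g 2 (by norm_num) (by rw [pow_two, h2])
  rw [h3, one_smul] at h
  obtain ⟨x, hx⟩ := hC
  have h4 : x ∈ Cᶜ := h ▸ hx
  exact h4 hx

/-- the ping-pong lemma for two subgroups of a torsion-free group -/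
theorem bij (htf : ∀ g : A, ∀ m : ℕ, 0 < m → g ^ m = 1 → g = 1) (H : Bool → Subgroup A) (hB : H true ≠ ⊥)
    (X : Bool → Set A) (hX : ∀ i, (X i).Nonempty) (hd : Disjoint (X true) (X false))
    (h1 : ∀ b ∈ H true, b ≠ 1 → b • X false ⊆ X true) (h2 : ∀ d ∈ H false, d ≠ 1 → d • X true ⊆ X false)
    (hs : H true ⊔ H false = ⊤) :
    Function.Bijective (Monoid.CoprodI.lift fun b => (H b).subtype) := by
  constructor
  · refine Monoid.CoprodI.lift_injective_of_ping_pong _ (Or.inr ⟨true, ?_⟩) X hX ?_ ?_
    · obtain ⟨b, hb1⟩ : ∃ a : H true, a ≠ 1 := Subgroup.ne_bot_iff_exists_ne_one.1 hB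
      have : Infinite (H true) := by
        have h3 : Function.Injective fun n : ℕ => b ^ n := by
          rw [injective_pow_iff_not_isOfFinOrder]
          intro h3
          obtain ⟨m, hm, h4⟩ := isOfFinOrder_iff_pow_eq_one.1 h3
          have h5 : (b : A) ^ m = 1 := by
            have := congrArg Subtype.val h4
            simpa using this
          exact hb1 (Subtype.ext (htf b m hm h5))
        exact Infinite.of_injective _ h3
      exact (Cardinal.ofNat_le_aleph0).trans (Cardinal.aleph0_le_mk _)
    · intro i j hij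
      cases i <;> cases j
      · exact absurd rfl hij
      · exact hd.symm
      · exact hd
      · exact absurd rfl hij
    · intro i j hij h hh
      have hh' : (h : A) ≠ 1 := fun h3 => hh (Subtype.ext h3)
      cases i <;> cases j
      · exact absurd rfl hij
      · exact h2 h h.2 hh'
      · exact h1 h h.2 hh'
      · exact absurd rfl hij
  · rw [← MonoidHom.range_eq_top, eq_top_iff, ← hs, sup_le_iff]
    constructor
    · intro a ha
      exact ⟨Monoid.CoprodI.of (i := true) ⟨a, ha⟩, Monoid.CoprodI.lift_of _ _⟩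
    · intro a ha
      exact ⟨Monoid.CoprodI.of (i := false) ⟨a, ha⟩, Monoid.CoprodI.lift_of _ _⟩

end Sp

open Sp

/-- **Splitting.** A torsion-free group with a nested cut is infinite cyclic or the free product of two non trivial
subgroups. -/
theorem exists_split {A : Type} [Group A] (htf : ∀ g : A, ∀ m : ℕ, 0 < m → g ^ m = 1 → g = 1) (C : Set A)
    (hCi : C.Infinite) (hCi' : Cᶜ.Infinite) (hfin : ∀ x y : A, {g : A | x ∈ g • C ∧ y ∉ g • C}.Finite)
    (hn : ∀ g : A, C ⊆ g • C ∨ g • C ⊆ C ∨ Disjoint C (g • C) ∨ C ∪ g • C = Set.univ) :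
    (∃ t : A, Subgroup.zpowers t = ⊤) ∨ ∃ H : Bool → Subgroup A, (∀ b, H b ≠ ⊥) ∧
      Function.Bijective (Monoid.CoprodI.lift fun b => (H b).subtype) := by
  have hC : C.Nonempty := hCi.nonempty
  have hC' : Cᶜ.Nonempty := hCi'.nonempty
  have hn' : ∀ g : A, Nest C (g • C) := by
    intro g
    rcases hn g with h | h | h | h
    · exact Or.inl h
    · exact Or.inr (Or.inl h)
    · exact Or.inr (Or.inr (Or.inl (Set.subset_compl_iff_disjoint_right.2 h)))
    · exact Or.inr (Or.inr (Or.inr (Set.compl_subset_iff_union.2 h)))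
  have hCH : Half C C := ⟨1, Or.inl (one_smul _ _).symm⟩
  have hCH' : Half C Cᶜ := half_compl hCH
  have tr : ∀ {X Y Z : Set A}, Half C X → Half C Y → Half C Z → Rel C X Y → Rel C Y Z → Rel C X Z :=
    fun hX hY hZ h1 h2 => h1.trans hC hC' hn' hX hY hZ h2
  have e1 : ∀ {g : A}, g • C = C → g = 1 := fun h => eq_one htf hfin hC hC' h
  have e1' : ∀ {g : A}, g • Cᶜ = Cᶜ → g = 1 := fun h => e1 (compl_injective (by
    rw [← Set.smul_set_compl, h]))
  have e2 : ∀ {g : A}, g • C = Cᶜ → False := fun h => ne_compl htf hfin hC hC' h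
  by_cases ht : ∃ t : A, Rel C (t • Cᶜ) C
  · obtain ⟨t, ht⟩ := ht
    have hsub : t • Cᶜ ⊆ Cᶜ := ht.sub fun h => e2 (g := t) (compl_injective (by
      rw [← Set.smul_set_compl, h, compl_compl]))
    have hsub' : C ⊆ t • C := by
      rw [Set.smul_set_compl] at hsub
      exact Set.compl_subset_compl.1 hsub
    have ht1 : t ≠ 1 := by
      rintro rfl
      rw [one_smul] at ht
      rcases ht with h | h
      · obtain ⟨x, hx⟩ := hC
        have h1 : x ∈ Cᶜ := by
          rw [h]
          exact hx
        exact h1 hx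
      · exact absurd rfl h.1.ne
    have hgen : stab hC hC' hn' hCH ⊔ Subgroup.zpowers t = ⊤ := by
      refine gen hfin hC hC' hn' _ ?_
      have htm : t ∈ stab hC hC' hn' hCH ⊔ Subgroup.zpowers t :=
        Subgroup.mem_sup_right (Subgroup.mem_zpowers t)
      have htm' : t⁻¹ ∈ stab hC hC' hn' hCH ⊔ Subgroup.zpowers t := inv_mem htm
      have ht' : Rel C Cᶜ (t⁻¹ • C) := by
        have h1 := ht.smul t⁻¹
        rwa [inv_smul_smul] at h1
      intro g X Y hX hY h
      rcases hX with hX | hX <;> rcases hY with hY | hY <;> rw [hX, hY] at h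
      · exact Subgroup.mem_sup_left (h : g ∈ stab hC hC' hn' hCH)
      · -- `g • C ~ Cᶜ`
        have h1 : Rel C ((t * g) • C) C := by
          have h2 := h.smul t
          rw [smul_smul] at h2
          exact tr (half_smul _ hCH) (half_smul _ hCH') hCH h2 ht
        have h2 : t * g ∈ stab hC hC' hn' hCH ⊔ Subgroup.zpowers t :=
          Subgroup.mem_sup_left (h1 : t * g ∈ stab hC hC' hn' hCH)
        have h3 := mul_mem htm' h2
        rwa [inv_mul_cancel_left] at h3
      · -- `g • Cᶜ ~ C`
        have h1 : Rel C ((g * t⁻¹) • C) C := by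
          have h2 := ht'.symm.smul g
          rw [smul_smul] at h2
          exact tr (half_smul _ hCH) (half_smul _ hCH') hCH h2 h
        have h2 : g * t⁻¹ ∈ stab hC hC' hn' hCH ⊔ Subgroup.zpowers t :=
          Subgroup.mem_sup_left (h1 : g * t⁻¹ ∈ stab hC hC' hn' hCH)
        have h3 := mul_mem h2 htm
        rwa [inv_mul_cancel_right] at h3
      · -- `g • Cᶜ ~ Cᶜ`
        have h0 : Rel C ((g * t⁻¹) • C) (t⁻¹ • C) := by
          have h2 := ht'.symm.smul g
          rw [smul_smul] at h2
          exact tr (half_smul _ hCH) hCH' (half_smul _ hCH)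
            (tr (half_smul _ hCH) (half_smul _ hCH') hCH' h2 h) ht'
        have h1 : Rel C ((t * (g * t⁻¹)) • C) C := by
          have h2 := h0.smul t
          rwa [smul_smul, smul_inv_smul] at h2
        have h2 : t * (g * t⁻¹) ∈ stab hC hC' hn' hCH ⊔ Subgroup.zpowers t :=
          Subgroup.mem_sup_left (h1 : t * (g * t⁻¹) ∈ stab hC hC' hn' hCH)
        have h3 := mul_mem (mul_mem htm' h2) htm
        rwa [inv_mul_cancel_left, inv_mul_cancel_right] at h3
    by_cases hbot : stab hC hC' hn' hCH = ⊥
    · left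
      refine ⟨t, ?_⟩
      rw [hbot, bot_sup_eq] at hgen
      exact hgen
    · right
      refine ⟨fun b => bif b then stab hC hC' hn' hCH else Subgroup.zpowers t, ?_, ?_⟩
      · intro b
        cases b
        · exact fun h => ht1 (Subgroup.zpowers_eq_bot.1 h)
        · exact hbot
      · -- monotonicity of the powers of `t`
        have hmon : ∀ n : ℕ, C ⊆ t ^ n • C := by
          intro n
          induction n with
          | zero => rw [pow_zero, one_smul]
          | succ n ih =>
            rw [pow_succ, ← smul_smul]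
            exact ih.trans (Set.smul_set_mono hsub')
        refine bij htf _ hbot (fun b => bif b then (Cᶜ ∩ t • C) else (C ∪ t • Cᶜ)) ?_ ?_ ?_ ?_ hgen
        · intro b
          cases b
          · exact hC.mono Set.subset_union_left
          · change (Cᶜ ∩ t • C).Nonempty
            rw [Set.nonempty_iff_ne_empty]
            intro h
            have h1 : t • C ⊆ C := by
              intro x hx
              by_contra hx'
              exact (h ▸ (⟨hx', hx⟩ : x ∈ Cᶜ ∩ t • C) : x ∈ (∅ : Set A))
            exact ht1 (e1 (subset_antisymm h1 hsub'))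
        · change Disjoint (Cᶜ ∩ t • C) (C ∪ t • Cᶜ)
          rw [Set.disjoint_left]
          rintro x ⟨h1, h2⟩ (h3 | h3)
          · exact h1 h3
          · rw [Set.smul_set_compl] at h3
            exact h3 h2
        · intro a ha ha1
          change a • (C ∪ t • Cᶜ) ⊆ Cᶜ ∩ t • C
          have ha' : Rel C (a • C) C := ha
          have htc : t • C = (t • Cᶜ)ᶜ := by rw [Set.smul_set_compl, compl_compl]
          have hat : Rel C (a • (t • Cᶜ)) (a • C) := ht.smul a
          have hH1 : Half C (t • Cᶜ) := half_smul _ hCH'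
          rw [Set.smul_set_union]
          refine Set.union_subset (Set.subset_inter ?_ ?_) (Set.subset_inter ?_ ?_)
          · exact ha'.sub fun h => ha1 (e1 h)
          · rw [htc]
            refine (tr (half_smul _ hCH) hCH hH1 ha' ht.symm).sub fun h => ?_
            refine e2 (g := t⁻¹ * a) ?_
            rw [← smul_smul, h, inv_smul_smul]
          · refine (tr (half_smul _ hH1) (half_smul _ hCH) hCH hat ha').sub fun h => ?_
            refine e2 (g := a * t) (compl_injective ?_)
            rw [← Set.smul_set_compl, ← smul_smul, h, compl_compl]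
          · rw [htc]
            refine (tr (half_smul _ hH1) (half_smul _ hCH) hH1 hat
              (tr (half_smul _ hCH) hCH hH1 ha' ht.symm)).sub fun h => ha1 ?_
            have h1 : (t⁻¹ * (a * t)) • Cᶜ = Cᶜ := by
              rw [← smul_smul, ← smul_smul, h, inv_smul_smul]
            have h2 := e1' h1
            exact mul_eq_right.1 (inv_mul_eq_one.1 h2).symm
        · intro d hd hd1
          change d • (Cᶜ ∩ t • C) ⊆ C ∪ t • Cᶜ
          obtain ⟨n, rfl⟩ := Subgroup.mem_zpowers_iff.1 hd
          rcases lt_trichotomy n 0 with hneg | hzero | hpos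
          · obtain ⟨m, rfl⟩ : ∃ m : ℕ, n = -((m + 1 : ℕ) : ℤ) := ⟨(-n - 1).toNat, by omega⟩
            refine (Set.smul_set_mono Set.inter_subset_right).trans (Set.Subset.trans ?_ Set.subset_union_left)
            rw [zpow_neg, zpow_natCast, smul_smul, Set.smul_set_subset_iff_subset_inv_smul_set]
            refine (hmon m).trans (le_of_eq ?_)
            congr 1
            rw [mul_inv_rev, inv_inv, pow_succ']
            group
          · exact absurd (by rw [hzero, zpow_zero]) hd1
          · obtain ⟨m, rfl⟩ : ∃ m : ℕ, n = ((m + 1 : ℕ) : ℤ) := ⟨(n - 1).toNat, by omega⟩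
            refine (Set.smul_set_mono Set.inter_subset_left).trans (Set.Subset.trans ?_ Set.subset_union_right)
            rw [zpow_natCast, pow_succ', ← smul_smul]
            refine Set.smul_set_mono ?_
            rw [Set.smul_set_compl]
            exact Set.compl_subset_compl.2 (hmon m)
  · right
    push Not at ht
    have hgen : stab hC hC' hn' hCH ⊔ stab hC hC' hn' hCH' = ⊤ := by
      refine gen hfin hC hC' hn' _ ?_
      intro g X Y hX hY h
      rcases hX with hX | hX <;> rcases hY with hY | hY <;> rw [hX, hY] at h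
      · exact Subgroup.mem_sup_left (h : g ∈ stab hC hC' hn' hCH)
      · exfalso
        have h1 := h.symm.smul g⁻¹
        rw [inv_smul_smul] at h1
        exact ht _ h1
      · exact absurd h (ht _)
      · exact Subgroup.mem_sup_right (h : g ∈ stab hC hC' hn' hCH')
    -- the two moves
    have mv : ∀ a ∈ stab hC hC' hn' hCH, a ≠ 1 → a • C ⊆ Cᶜ := by
      intro a ha ha1
      exact Rel.sub (C := C) ha fun h => ha1 (e1 h)
    have mv' : ∀ a ∈ stab hC hC' hn' hCH', a ≠ 1 → a • Cᶜ ⊆ C := by
      intro a ha ha1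
      have h1 := Rel.sub (C := C) (X := a • Cᶜ) ha fun h => ha1 (e1' h)
      rwa [compl_compl] at h1
    have two : ∀ X : Set A, X.Infinite → ∃ a : A, a ≠ 1 ∧ ¬ a • X ⊆ Xᶜ := by
      intro X hX
      obtain ⟨x, hx⟩ := hX.nonempty
      obtain ⟨y, hy, hyx⟩ := hX.exists_notMem_finset {x}
      rw [Finset.mem_singleton] at hyx
      refine ⟨y * x⁻¹, fun h => hyx (mul_inv_eq_one.1 h), fun h => ?_⟩
      have h1 : y ∈ (y * x⁻¹) • X := ⟨x, hx, by simp⟩
      exact h h1 hy
    have hAw : stab hC hC' hn' hCH' ≠ ⊥ := by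
      intro h
      rw [h, sup_bot_eq] at hgen
      obtain ⟨a, ha, ha'⟩ := two C hCi
      exact ha' (mv a (hgen ▸ Subgroup.mem_top a) ha)
    have hAv : stab hC hC' hn' hCH ≠ ⊥ := by
      intro h
      rw [h, bot_sup_eq] at hgen
      obtain ⟨a, ha, ha'⟩ := two Cᶜ hCi'
      rw [compl_compl] at ha'
      exact ha' (mv' a (hgen ▸ Subgroup.mem_top a) ha)
    refine ⟨fun b => bif b then stab hC hC' hn' hCH else stab hC hC' hn' hCH', ?_, ?_⟩
    · intro b
      cases b
      · exact hAw
      · exact hAv
    · refine bij htf _ hAv (fun b => bif b then Cᶜ else C) ?_ ?_ mv mv' hgen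
      · intro b
        cases b
        · exact hC
        · exact hC'
      · exact disjoint_compl_left

/-- The same, with the name used in the induction. -/
theorem split {A : Type} [Group A] (tf : ∀ g : A, ∀ m : ℕ, 0 < m → g ^ m = 1 → g = 1) (C : Set A)
    (hC : C.Infinite) (hCc : Cᶜ.Infinite) (hfin : ∀ x y : A, {g : A | x ∈ g • C ∧ y ∉ g • C}.Finite)
    (hn : ∀ g : A, C ⊆ g • C ∨ g • C ⊆ C ∨ Disjoint C (g • C) ∨ C ∪ g • C = Set.univ) :
    (∃ t : A, Subgroup.zpowers t = ⊤) ∨ ∃ H : Bool → Subgroup A, (∀ b, H b ≠ ⊥) ∧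
      Function.Bijective (Monoid.CoprodI.lift fun b => (H b).subtype) :=
  exists_split tf C hC hCc hfin hn

end Pool.Agent.MelE
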