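import Pool.Agent.MelE.Cut
import Pool.Agent.MelE.CutDer
import Pool.Agent.MelE.Split
import Pool.Agent.MelE.FreeA
import Pool.Agent.MelE.B1

/-!
# The induction (module E5)

`free_of_der`: strong induction on `b1 A`.  `A` trivial: free.  Otherwise `A` is torsion-free and infinite; `S` = a
finite symmetric generating set; `cut_of_der`, `exists_nested`, `fin_sep`, `split`.  `A` infinite cyclic: free.
`A = H true * H false`: both are retracts of `A`, so finitely generated with `Der`; locally indicable as
subgroups; `b1 (H b) < b1 A`; so both are free, and `A` is free.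
-/

open Pointwise Monoid

namespace Pool.Agent.MelE

open Pool.Agent.MelL (LocInd locInd_subgroup)

theorem exists_sym {A : Type} [Group A] (hfg : Group.FG A) :
    ∃ S : Finset A, (∀ s ∈ S, s⁻¹ ∈ S) ∧ Subgroup.closure (S : Set A) = ⊤ := by
  classical
  obtain ⟨T, hT⟩ := Group.fg_def.mp hfg
  refine ⟨T ∪ T.image fun x => x⁻¹, ?_, ?_⟩
  · intro s hs
    rw [Finset.mem_union, Finset.mem_image] at hs ⊢
    rcases hs with hs | ⟨x, hx, rfl⟩
    · exact Or.inr ⟨s, hs, rfl⟩
    · exact Or.inl (by rwa [inv_inv])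
  · rw [eq_top_iff, ← hT]
    apply Subgroup.closure_mono
    intro x hx
    rw [Finset.mem_coe, Finset.mem_union]
    exact Or.inl hx

theorem infinite_of_tf {A : Type} [Group A] (tf : ∀ g : A, ∀ m : ℕ, 0 < m → g ^ m = 1 → g = 1) {g : A} (hg : g ≠ 1) :
    Infinite A := by
  by_contra h
  rw [not_infinite_iff_finite] at h
  exact hg (tf g (orderOf g) (orderOf_pos g) (pow_orderOf_eq_one g))

theorem free_of_der (n : ℕ) : ∀ {A : Type} [Group A], Group.FG A → LocInd A → Der (ZMod 2) A → b1 A ≤ n →
    IsFreeGroup A := by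
  induction n using Nat.strong_induction_on with
  | _ n ih =>
    intro A _ hfg hloc hd hn
    have tf := tf_of_locInd hloc
    by_cases h0 : ∀ g : A, g = 1
    · exact free_cyclic tf 1 fun g => by rw [h0 g]; exact one_mem _
    push Not at h0
    obtain ⟨g0, hg0⟩ := h0
    have : Infinite A := infinite_of_tf tf hg0
    obtain ⟨S, hS, hgen⟩ := exists_sym hfg
    obtain ⟨B, hB, hBc, hBf⟩ := cut_of_der hd S
    obtain ⟨C, hC, hCc, hCf, hnest⟩ := exists_nested S hS hgen B hB hBc hBf
    rcases exists_split tf C hC hCc (fin_sep hS hgen hCf) hnest with ⟨s, hs⟩ | ⟨H, hne, hH⟩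
    · exact free_cyclic tf s fun g => by rw [hs]; trivial
    · refine free_coprod H hH fun b => ?_
      obtain ⟨hfb, hlt⟩ := b1_lt hfg hloc H hne hH b
      obtain ⟨ρ, hρ, _⟩ := retr H hH b
      exact ih (b1 (H b)) (by omega) hfb (locInd_subgroup hloc _) (der_retract (H b).subtype ρ hρ hd) le_rfl

end Pool.Agent.MelE
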