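import Mathlib

/-!
# The free product of two free groups is free
-/

namespace Pool.Agent.MelE

open Monoid (Coprod)

theorem free_prod {A B : Type} [Group A] [Group B] (hA : IsFreeGroup A) (hB : IsFreeGroup B) :
    IsFreeGroup (Coprod A B) := by
  obtain ⟨X, ⟨bX⟩⟩ := hA.nonempty_basis
  obtain ⟨Y, ⟨bY⟩⟩ := hB.nonempty_basis
  let f : Coprod (FreeGroup X) (FreeGroup Y) →* FreeGroup (X ⊕ Y) :=
    Coprod.lift (FreeGroup.map Sum.inl) (FreeGroup.map Sum.inr)
  let g : FreeGroup (X ⊕ Y) →* Coprod (FreeGroup X) (FreeGroup Y) :=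
    FreeGroup.lift (Sum.elim (fun x => Coprod.inl (FreeGroup.of x)) fun y => Coprod.inr (FreeGroup.of y))
  have h1 : g.comp f = MonoidHom.id _ := by
    apply Coprod.hom_ext
    · ext x
      simp [f, g]
    · ext y
      simp [f, g]
  have h2 : f.comp g = MonoidHom.id _ := by
    apply FreeGroup.ext_hom
    intro z
    rcases z with x | y
    · simp [f, g]
    · simp [f, g]
  let e : Coprod (FreeGroup X) (FreeGroup Y) ≃* FreeGroup (X ⊕ Y) := MonoidHom.toMulEquiv f g h1 h2
  exact (FreeGroupBasis.ofRepr ((MulEquiv.coprodCongr bX.repr bY.repr).trans e)).isFreeGroup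

end Pool.Agent.MelE
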