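import Pool.Agent.MelE.DerR
import Pool.Agent.MelR.Star

/-!
# One factor of a free product with `ℤ`, derivation form

`N` a group all of whose subgroups of finite index are one-relator, `ρ : N → H * ℤ` with a section `s`, `K[H]` without
zero divisors: `Der K H`.  The kernel of `χ : H * ℤ → ℤ / 2` is the free product of `H`, a conjugate of `H` and `ℤ`
(`Pool.Agent.MelR.StarF`, helper14).
-/

set_option linter.unusedSectionVars false

open Finset

namespace Pool.Agent.MelE

open Monoid (CoprodI Coprod)
open Pool.Agent.MelG (HasRel)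
open Pool.Agent.MelR
open Pool.Agent.MelR.StarF

theorem star_typ {K N H : Type} [Field K] [Group N] [Group H] (hN : ∀ M : Subgroup N, M.FiniteIndex → HasRel 1 M)
    (hK : NoZeroDivisors (MonoidAlgebra K H)) (ρ : N →* Coprod H (Multiplicative ℤ))
    (s : Coprod H (Multiplicative ℤ) →* N) (hs : ∀ p, ρ (s p) = p) : Der K H := by
  let N2 : Subgroup N := ((chi H).comp ρ).ker
  have hN2 : N2.FiniteIndex := inferInstance
  let s2 : CoprodI (Fam H) →* N2 := (s.comp (jj H)).codRestrict N2 (fun q => by
    show chi H (ρ (s (jj H q))) = 1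
    rw [hs, chi_jj])
  have hs2 : ∀ p, tht ρ (s2 p) = p := by
    intro p
    show (W H (ρ (s (jj H p))) (false, 1)).2 = p
    rw [hs, W_jj, mul_one]
  obtain ⟨k, ⟨X⟩⟩ := ret_of_hasRel (hN N2 hN2) (tht ρ) s2 hs2
  have hdom : ∀ i, NoZeroDivisors (MonoidAlgebra K (Fam H i)) := by
    intro i
    match i with
    | none => exact inferInstanceAs (NoZeroDivisors (MonoidAlgebra K (Multiplicative ℤ)))
    | some _ => exact hK
  rcases core X hdom (i := some false) (l := some true) (by simp) with h | h
  · exact h
  · exact h

end Pool.Agent.MelE
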