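import Pool.Agent.MelL.Tf
import Pool.Agent.MelE.StarR
import Pool.Agent.MelE.Free
import Pool.Agent.MelE.FreeProd
import Pool.Agent.MelE.Chi

/-!
# Virtual retracts of Mel'nikov groups which are free products are free

* `exists_chi`: a finitely generated locally indicable group `B ≠ 1` has a surjective homomorphism to `ℤ` (the image
  of `B` in `ℚ` is a finitely generated torsion-free abelian group, so free; a coordinate).
* `free_left`: `N` infinite Mel'nikov-like (all subgroups of finite index one-relator, locally indicable),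
  `ρ : N → A * B` with a section, `B ≠ 1`: compose with `A * B → A * ℤ`, which has a section as `χ : B → ℤ` is
  surjective; `star_typ`, `free_of_der`.
* `free_prod`: the free product of two free groups is free.
-/

set_option linter.unusedSectionVars false

namespace Pool.Agent.MelE

open Monoid (CoprodI Coprod)
open Pool.Agent.MelG (HasRel IsMelnikov)
open Pool.Agent.MelL (LocInd locInd_subgroup locInd_of_injective noZero_of_locInd locInd_melnikov)

theorem fg_of_hasRel {N : Type} [Group N] (h : HasRel 1 N) : Group.FG N := by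
  obtain ⟨k, R, _, _, ⟨e⟩⟩ := h
  have h1 : Group.FG (FreeGroup (Fin k)) := inferInstance
  exact Group.fg_of_surjective (f := e.symm.toMonoidHom.comp (PresentedGroup.mk R))
    (e.symm.surjective.comp (QuotientGroup.mk'_surjective _))

theorem free_left {N A B : Type} [Group N] [Group A] [Group B] (hN : ∀ M : Subgroup N, M.FiniteIndex → HasRel 1 M)
    (hl : LocInd N) (hB : Nontrivial B) (ρ : N →* Coprod A B) (s : Coprod A B →* N) (hs : ∀ p, ρ (s p) = p) :
    IsFreeGroup A := by
  have hfN : Group.FG N := by
    obtain ⟨k, R, hR, hR1, ⟨e⟩⟩ := hN ⊤ inferInstance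
    exact fg_of_hasRel ⟨k, R, hR, hR1, ⟨(Subgroup.topEquiv).symm.trans e⟩⟩
  have hρ : Function.Surjective ρ := fun p => ⟨s p, hs p⟩
  have hsi : Function.Injective s := fun a b h => by rw [← hs a, ← hs b, h]
  have hfA : Group.FG A := Group.fg_of_surjective (f := (Coprod.fst (M := A) (N := B)).comp ρ)
    (Coprod.fst_surjective.comp hρ)
  have hfB : Group.FG B := Group.fg_of_surjective (f := (Coprod.snd (M := A) (N := B)).comp ρ)
    (Coprod.snd_surjective.comp hρ)
  have hlA : LocInd A := locInd_of_injective (s.comp Coprod.inl) (hsi.comp Coprod.inl_injective) hl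
  have hlB : LocInd B := locInd_of_injective (s.comp Coprod.inr) (hsi.comp Coprod.inr_injective) hl
  obtain ⟨χ, b, hb⟩ := exists_chi hfB hlB hB
  let p1 : Coprod A B →* Coprod A (Multiplicative ℤ) := Coprod.map (MonoidHom.id A) χ
  let i1 : Coprod A (Multiplicative ℤ) →* Coprod A B := Coprod.map (MonoidHom.id A) (zpowersHom B b)
  have h1 : ∀ p, p1 (i1 p) = p := by
    intro p
    have h2 : p1.comp i1 = MonoidHom.id _ := by
      apply Coprod.hom_ext
      · ext x
        simp [p1, i1]
      · apply MonoidHom.ext_mint
        simp [p1, i1, hb]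
    exact DFunLike.congr_fun h2 p
  have hd : Der (ZMod 2) A := star_typ hN (noZero_of_locInd hlA (ZMod 2)) (p1.comp ρ) (s.comp i1) fun p => by
    show p1 (ρ (s (i1 p))) = p
    rw [hs, h1]
  exact free_of_der (b1 A) hfA hlA hd le_rfl

theorem free_retract {G : Type} [Group G] [Infinite G] (hG : IsMelnikov G) (N : Subgroup G) (hN : N.FiniteIndex)
    {A B : Type} [Group A] [Group B] [Nontrivial A] [Nontrivial B] (ρ : N →* Coprod A B) (s : Coprod A B →* N)
    (hs : ∀ p, ρ (s p) = p) : IsFreeGroup (Coprod A B) := by
  have hNM : ∀ M : Subgroup N, M.FiniteIndex → HasRel 1 M := by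
    intro M hM
    have h1 : (M.map N.subtype).FiniteIndex := by
      refine ⟨?_⟩
      rw [Subgroup.index_map_subtype]
      exact mul_ne_zero hM.index_ne_zero hN.index_ne_zero
    obtain ⟨y, R, a, b, ⟨e3⟩⟩ := hG.2 _ h1
    exact ⟨y, R, a, b, ⟨(M.equivMapOfInjective N.subtype N.subtype_injective).trans e3⟩⟩
  have hl : LocInd N := locInd_subgroup (locInd_melnikov hG) N
  refine free_prod (free_left hNM hl inferInstance ρ s hs) ?_
  refine free_left (A := B) (B := A) hNM hl inferInstance ((Coprod.swap A B).comp ρ) (s.comp (Coprod.swap B A)) ?_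
  intro p
  show Coprod.swap A B (ρ (s (Coprod.swap B A p))) = p
  rw [hs]
  exact DFunLike.congr_fun (Coprod.swap_comp_swap A B) p

end Pool.Agent.MelE
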