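import Mathlib

/-!
# Splitting of a group along a nested cut

`A` torsion-free, `C ⊆ A` nested with all its translates, `C` and its complement infinite, and for all `x`, `y` only
finitely many translates of `C` contain `x` and not `y`.  Then `A` is infinite cyclic or the free product of two non
trivial subgroups.

Half spaces are the translates of `C` and of `Cᶜ`.  `Rel C X Y` (the half spaces `X` and `Y` begin at the same
vertex of the tree): `X = Y`, or `X ⊂ Yᶜ` and there is no half space between them.  This is an equivalence relation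
because of the nestedness.
-/

open Pointwise

set_option linter.unusedSectionVars false

namespace Pool.Agent.MelE.Sp

variable {A : Type} [Group A] (C : Set A)

/-- half spaces: the translates of `C` and of its complement -/
def Half (X : Set A) : Prop := ∃ g : A, X = g • C ∨ X = g • Cᶜ

/-- half spaces which begin at the same vertex -/
def Rel (X Y : Set A) : Prop :=
  X = Y ∨ (X ⊂ Yᶜ ∧ ∀ Z, Half C Z → X ⊆ Z → Z ⊆ Yᶜ → Z = X ∨ Z = Yᶜ)

/-- nested sets -/
def Nest (X Y : Set A) : Prop := X ⊆ Y ∨ Y ⊆ X ∨ X ⊆ Yᶜ ∨ Xᶜ ⊆ Y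

variable {C}

theorem half_smul {X : Set A} (g : A) (h : Half C X) : Half C (g • X) := by
  obtain ⟨k, rfl | rfl⟩ := h
  · exact ⟨g * k, Or.inl (smul_smul g k C)⟩
  · exact ⟨g * k, Or.inr (smul_smul g k Cᶜ)⟩

theorem half_compl {X : Set A} (h : Half C X) : Half C Xᶜ := by
  obtain ⟨k, rfl | rfl⟩ := h
  · exact ⟨k, Or.inr Set.smul_set_compl.symm⟩
  · exact ⟨k, Or.inl (by rw [Set.smul_set_compl, compl_compl])⟩

theorem Nest.symm {X Y : Set A} (h : Nest X Y) : Nest Y X := by
  rcases h with h | h | h | h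
  · exact Or.inr (Or.inl h)
  · exact Or.inl h
  · exact Or.inr (Or.inr (Or.inl (Set.subset_compl_comm.1 h)))
  · exact Or.inr (Or.inr (Or.inr (Set.compl_subset_comm.1 h)))

theorem Nest.compl {X Y : Set A} (h : Nest X Y) : Nest X Yᶜ := by
  rcases h with h | h | h | h
  · exact Or.inr (Or.inr (Or.inl (by rwa [compl_compl])))
  · exact Or.inr (Or.inr (Or.inr (Set.compl_subset_compl.2 h)))
  · exact Or.inl h
  · exact Or.inr (Or.inl (Set.compl_subset_comm.1 h))

theorem Nest.smul {X Y : Set A} (g : A) (h : Nest X Y) : Nest (g • X) (g • Y) := by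
  rcases h with h | h | h | h
  · exact Or.inl (Set.smul_set_mono h)
  · exact Or.inr (Or.inl (Set.smul_set_mono h))
  · exact Or.inr (Or.inr (Or.inl (by
      rw [← Set.smul_set_compl]
      exact Set.smul_set_mono h)))
  · exact Or.inr (Or.inr (Or.inr (by
      rw [← Set.smul_set_compl]
      exact Set.smul_set_mono h)))

theorem nested (hn : ∀ g : A, Nest C (g • C)) {X Y : Set A} (hX : Half C X) (hY : Half C Y) : Nest X Y := by
  have key : ∀ g h : A, Nest (g • C) (h • C) := by
    intro g h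
    have h1 := (hn (g⁻¹ * h)).smul g
    rwa [smul_smul, mul_inv_cancel_left] at h1
  obtain ⟨g, rfl | rfl⟩ := hX <;> obtain ⟨h, rfl | rfl⟩ := hY
  · exact key g h
  · rw [Set.smul_set_compl]
    exact (key g h).compl
  · rw [Set.smul_set_compl]
    exact (key g h).symm.compl.symm
  · rw [Set.smul_set_compl, Set.smul_set_compl]
    exact (key g h).symm.compl.symm.compl

theorem half_nonempty (hC : C.Nonempty) (hC' : Cᶜ.Nonempty) {X : Set A} (hX : Half C X) : X.Nonempty := by
  obtain ⟨g, rfl | rfl⟩ := hX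
  · exact hC.smul_set
  · exact hC'.smul_set

theorem Rel.refl (X : Set A) : Rel C X X := Or.inl rfl

theorem Rel.symm {X Y : Set A} (h : Rel C X Y) : Rel C Y X := by
  rcases h with h | ⟨h1, h2⟩
  · exact Or.inl h.symm
  · refine Or.inr ⟨⟨Set.subset_compl_comm.1 h1.1, fun h => h1.2 (Set.compl_subset_comm.1 h)⟩, ?_⟩
    intro Z hZ h3 h4
    rcases h2 Zᶜ (half_compl hZ) (Set.subset_compl_comm.1 h4) (Set.compl_subset_compl.2 h3) with h5 | h5
    · exact Or.inr (by rw [← h5, compl_compl])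
    · exact Or.inl (compl_injective h5)

theorem Rel.smul {X Y : Set A} (g : A) (h : Rel C X Y) : Rel C (g • X) (g • Y) := by
  rcases h with h | ⟨h1, h2⟩
  · exact Or.inl (by rw [h])
  · refine Or.inr ⟨?_, ?_⟩
    · rw [← Set.smul_set_compl]
      exact ⟨Set.smul_set_mono h1.1, fun h => h1.2 (Set.smul_set_subset_smul_set_iff.1 h)⟩
    · intro Z hZ h3 h4
      rw [← Set.smul_set_compl] at h4 ⊢
      have h5 : X ⊆ g⁻¹ • Z := by
        rw [← Set.smul_set_subset_iff_subset_inv_smul_set]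
        exact h3
      have h6 : g⁻¹ • Z ⊆ Yᶜ := by
        rw [Set.smul_set_subset_iff_subset_inv_smul_set, inv_inv]
        exact h4
      rcases h2 _ (half_smul g⁻¹ hZ) h5 h6 with h7 | h7
      · left
        rw [← h7, smul_inv_smul]
      · right
        rw [← h7, smul_inv_smul]

/-- two different half spaces which begin at the same vertex are disjoint -/
theorem Rel.sub {X Y : Set A} (h : Rel C X Y) (hne : X ≠ Y) : X ⊆ Yᶜ := by
  rcases h with h | ⟨h1, -⟩
  · exact absurd h hne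
  · exact h1.1

theorem Rel.trans (hC : C.Nonempty) (hC' : Cᶜ.Nonempty) (hn : ∀ g : A, Nest C (g • C)) {X Y Z : Set A}
    (hX : Half C X) (hY : Half C Y) (hZ : Half C Z) (h1 : Rel C X Y) (h2 : Rel C Y Z) : Rel C X Z := by
  rcases h1 with h1 | ⟨h1, h1'⟩
  · rw [h1]
    exact h2
  · rcases h2.symm with h2 | ⟨h2, h2'⟩
    · rw [h2]
      exact Or.inr ⟨h1, h1'⟩
    · obtain ⟨x, hx⟩ := half_nonempty hC hC' hX
      obtain ⟨y, hy⟩ := half_nonempty hC hC' hY
      obtain ⟨z, hz⟩ := half_nonempty hC hC' hZ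
      by_cases hXZ : X = Z
      · exact Or.inl hXZ
      · right
        have hsub : X ⊆ Zᶜ := by
          rcases nested hn hX hZ with h | h | h | h
          · rcases h1' Z hZ h h2.1 with h3 | h3
            · exact absurd h3.symm hXZ
            · exact absurd h3 (fun h3 => h2.2 (by rw [h3]))
          · rcases h2' X hX h h1.1 with h3 | h3
            · exact absurd h3 hXZ
            · exact absurd h3 (fun h3 => h1.2 (by rw [h3]))
          · exact h
          · exfalso
            have h3 : y ∈ Xᶜ := fun h3 => (h1.1 h3) hy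
            exact (h2.1 (h h3)) hy
        have hne : X ≠ Zᶜ := by
          intro h
          have h3 : y ∈ Z := by
            by_contra h3
            exact (h1.1 (h ▸ (show y ∈ Zᶜ from h3))) hy
          exact (h2.1 h3) hy
        refine ⟨lt_of_le_of_ne hsub hne, ?_⟩
        intro W hW h3 h4
        rcases nested hn hW hY with h | h | h | h
        · exact absurd (h (h3 hx)) (h1.1 hx)
        · -- `Y ⊆ W`
          have h5 : Z ⊆ Wᶜ := Set.subset_compl_comm.1 h4
          rcases h2' Wᶜ (half_compl hW) h5 (Set.compl_subset_compl.2 h) with h6 | h6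
          · right
            rw [← h6, compl_compl]
          · exfalso
            have h7 : W = Y := compl_injective h6
            exact (h1.1 hx) (h7 ▸ h3 hx)
        · -- `W ⊆ Yᶜ`
          rcases h1' W hW h3 h with h6 | h6
          · exact Or.inl h6
          · exfalso
            have h7 : z ∈ Yᶜ := h2.1 hz
            exact (h4 (h6 ▸ h7)) hz
        · -- `Wᶜ ⊆ Y`
          exfalso
          have h5 : z ∈ Wᶜ := fun h5 => (h4 h5) hz
          exact (h2.1 hz) (h h5)

/-- intervals are finite -/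
theorem fin_int (hfin : ∀ x y : A, {g : A | x ∈ g • C ∧ y ∉ g • C}.Finite) {X Y : Set A} {x y : A}
    (hx : x ∈ X) (hy : y ∉ Y) : {Z | Half C Z ∧ X ⊆ Z ∧ Z ⊆ Y}.Finite := by
  refine (((hfin x y).image (fun g => g • C)).union ((hfin y x).image (fun g => g • Cᶜ))).subset ?_
  rintro Z ⟨⟨g, rfl | rfl⟩, h1, h2⟩
  · exact Or.inl ⟨g, ⟨h1 hx, fun h => hy (h2 h)⟩, rfl⟩
  · refine Or.inr ⟨g, ⟨?_, ?_⟩, rfl⟩
    · by_contra h
      refine hy (h2 ?_)
      rw [Set.smul_set_compl]
      exact h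
    · have h3 := h1 hx
      rw [Set.smul_set_compl] at h3
      exact h3

theorem gen_aux (hfin : ∀ x y : A, {g : A | x ∈ g • C ∧ y ∉ g • C}.Finite) (hC : C.Nonempty) (hC' : Cᶜ.Nonempty)
    (Γ : Subgroup A) (hΓ : ∀ (g : A) (X Y : Set A), (X = C ∨ X = Cᶜ) → (Y = C ∨ Y = Cᶜ) → Rel C (g • X) Y → g ∈ Γ) :
    ∀ (n : ℕ) (X Y : Set A), X ⊆ Y → {Z | Half C Z ∧ X ⊆ Z ∧ Z ⊆ Y}.ncard = n → ∀ g h : A,
      (X = g • C ∨ X = g • Cᶜ) → (Y = h • C ∨ Y = h • Cᶜ) → g⁻¹ * h ∈ Γ := by
  intro n
  induction n using Nat.strong_induction_on with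
  | _ n ih =>
    intro X Y hXY hnc g h hg hh
    have hX : Half C X := ⟨g, hg⟩
    have hY : Half C Y := ⟨h, hh⟩
    obtain ⟨x, hx⟩ := half_nonempty hC hC' hX
    obtain ⟨y, hy⟩ := half_nonempty hC hC' (half_compl hY)
    have hF := fin_int hfin hx hy
    obtain ⟨P, hP, rfl⟩ : ∃ P : Set A, (P = C ∨ P = Cᶜ) ∧ X = g • P := by
      rcases hg with hg | hg
      · exact ⟨C, Or.inl rfl, hg⟩
      · exact ⟨Cᶜ, Or.inr rfl, hg⟩
    obtain ⟨Q, hQ, rfl⟩ : ∃ Q : Set A, (Q = C ∨ Q = Cᶜ) ∧ Y = h • Q := by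
      rcases hh with hh | hh
      · exact ⟨C, Or.inl rfl, hh⟩
      · exact ⟨Cᶜ, Or.inr rfl, hh⟩
    by_cases heq : g • P = h • Q
    · refine hΓ _ Q P hQ hP (Or.inl ?_)
      rw [← smul_smul, ← heq, inv_smul_smul]
    · by_cases hb : ∀ Z, Half C Z → g • P ⊆ Z → Z ⊆ h • Q → Z = g • P ∨ Z = h • Q
      · have h1 : Rel C (g • P) (h • Q)ᶜ := by
          refine Or.inr ⟨?_, ?_⟩
          · rw [compl_compl]
            exact lt_of_le_of_ne hXY heq
          · rw [compl_compl]
            exact hb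
        have h2 := h1.symm.smul g⁻¹
        rw [inv_smul_smul, ← Set.smul_set_compl, smul_smul] at h2
        refine hΓ _ Qᶜ P ?_ hP h2
        rcases hQ with hQ | hQ
        · exact Or.inr (by rw [hQ])
        · exact Or.inl (by rw [hQ, compl_compl])
      · push Not at hb
        obtain ⟨Z, hZ, h1, h2, h3, h4⟩ := hb
        obtain ⟨z, hz⟩ := hZ
        have h5 : g⁻¹ * z ∈ Γ := by
          refine ih _ ?_ (g • P) Z h1 rfl g z hg hz
          rw [← hnc]
          refine Set.ncard_lt_ncard ⟨fun W hW => ⟨hW.1, hW.2.1, hW.2.2.trans h2⟩, fun hW => ?_⟩ hF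
          have h6 := (hW ⟨hY, hXY, subset_rfl⟩).2.2
          exact h4 (subset_antisymm h2 h6)
        have h6 : z⁻¹ * h ∈ Γ := by
          refine ih _ ?_ Z (h • Q) h2 rfl z h hz hh
          rw [← hnc]
          refine Set.ncard_lt_ncard ⟨fun W hW => ⟨hW.1, h1.trans hW.2.1, hW.2.2⟩, fun hW => ?_⟩ hF
          have h6 := (hW ⟨hX, subset_rfl, hXY⟩).2.1
          exact h3 (subset_antisymm h6 h1)
        have h7 := Γ.mul_mem h5 h6
        rwa [mul_assoc, mul_inv_cancel_left] at h7

theorem gen (hfin : ∀ x y : A, {g : A | x ∈ g • C ∧ y ∉ g • C}.Finite) (hC : C.Nonempty) (hC' : Cᶜ.Nonempty)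
    (hn : ∀ g : A, Nest C (g • C))
    (Γ : Subgroup A) (hΓ : ∀ (g : A) (X Y : Set A), (X = C ∨ X = Cᶜ) → (Y = C ∨ Y = Cᶜ) → Rel C (g • X) Y → g ∈ Γ) :
    Γ = ⊤ := by
  rw [eq_top_iff]
  intro h _
  rcases hn h with h1 | h1 | h1 | h1
  · have h2 := gen_aux hfin hC hC' Γ hΓ _ C (h • C) h1 rfl 1 h (Or.inl (one_smul _ _).symm) (Or.inl rfl)
    simpa using h2
  · have h2 := gen_aux hfin hC hC' Γ hΓ _ (h • C) C h1 rfl h 1 (Or.inl rfl) (Or.inl (one_smul _ _).symm)
    simpa using h2
  · rw [← Set.smul_set_compl] at h1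
    have h2 := gen_aux hfin hC hC' Γ hΓ _ C (h • Cᶜ) h1 rfl 1 h (Or.inl (one_smul _ _).symm) (Or.inr rfl)
    simpa using h2
  · have h2 := gen_aux hfin hC hC' Γ hΓ _ Cᶜ (h • C) h1 rfl 1 h (Or.inr (one_smul _ _).symm) (Or.inl rfl)
    simpa using h2

end Pool.Agent.MelE.Sp
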